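import Pool.Agent.H81.SLP.Ctx
import Pool.Agent.H18.PB.Tb
import Pool.Agent.H36.KBX.Coef

/-!
# The last step of the slope law, part 1: changes of coordinates, Taylor polynomials, Remez in time
-/

set_option autoImplicit false

namespace Pool.SLO.FN

open Finset Real MvPolynomial
open Pool.Agent.H49.Ent Pool.Agent.H32.Dense Pool.STK Pool.KA Pool.KSAT Pool.K2S Pool.PB Pool.SLO

variable {m : ℕ}

/-! ### From base coordinates to box coordinates -/

/-- From base coordinates to box coordinates. -/
noncomputable def ib (i₁ : Fin m) (a w : ℕ) (c D p : Fin m → ℝ) : Fin m → ℝ := fun j =>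
  if j = i₁ then 2 ^ w * (p i₁ - c i₁) else 2 ^ a * (p j - c j - D j * (p i₁ - c i₁))

theorem sb_ib (i₁ : Fin m) (a w : ℕ) (c D p : Fin m → ℝ) :
    sb i₁ a w c D (ib i₁ a w c D p) = p := by
  funext j
  have hw : (2 : ℝ) ^ w ≠ 0 := by positivity
  have ha : (2 : ℝ) ^ a ≠ 0 := by positivity
  unfold sb ib
  by_cases hj : j = i₁
  · subst hj
    simp only [if_true]
    field_simp
    ring
  · simp only [if_neg hj, if_true]
    field_simp
    ring

theorem ib_sb (i₁ : Fin m) (a w : ℕ) (c D b : Fin m → ℝ) :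
    ib i₁ a w c D (sb i₁ a w c D b) = b := by
  funext j
  have hw : (2 : ℝ) ^ w ≠ 0 := by positivity
  have ha : (2 : ℝ) ^ a ≠ 0 := by positivity
  unfold sb ib
  by_cases hj : j = i₁
  · subst hj
    simp only [if_true]
    field_simp
    ring
  · simp only [if_neg hj, if_true]
    field_simp
    ring

/-- The polynomials of the change of coordinates. -/
noncomputable def ibp (i₁ : Fin m) (a w : ℕ) (c D : Fin m → ℝ) (j : Fin m) :
    MvPolynomial (Fin m) ℝ :=
  if j = i₁ then C (-(2 ^ w * c i₁)) + C (2 ^ w) * X i₁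
  else C (-(2 ^ a * (c j - D j * c i₁))) + C (-(2 ^ a * D j)) * X i₁ + C (2 ^ a) * X j

/-- The polynomial in base coordinates. -/
noncomputable def push (i₁ : Fin m) (a w : ℕ) (c D : Fin m → ℝ) (G : MvPolynomial (Fin m) ℝ) :
    MvPolynomial (Fin m) ℝ := bind₁ (ibp i₁ a w c D) G

theorem eval_push (i₁ : Fin m) (a w : ℕ) (c D p : Fin m → ℝ) (G : MvPolynomial (Fin m) ℝ) :
    eval p (push i₁ a w c D G) = eval (ib i₁ a w c D p) G := by
  unfold push
  rw [eval, eval₂Hom_bind₁]
  congr 1
  congr 1
  funext j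
  change eval p (ibp i₁ a w c D j) = _
  unfold ibp ib
  split_ifs with h
  · simp only [map_add, map_mul, eval_C, eval_X]
    ring
  · simp only [map_add, map_mul, eval_C, eval_X]
    ring

theorem totalDegree_push_le (i₁ : Fin m) (a w : ℕ) (c D : Fin m → ℝ)
    (G : MvPolynomial (Fin m) ℝ) : (push i₁ a w c D G).totalDegree ≤ G.totalDegree := by
  refine totalDegree_bind₁_le _ (fun j => ?_) G
  have h : ∀ (x : ℝ) (k : Fin m), (C x * X k : MvPolynomial (Fin m) ℝ).totalDegree ≤ 1 := by
    intro x k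
    refine (totalDegree_mul _ _).trans ?_
    rw [totalDegree_C, totalDegree_X]
  have h0 : ∀ x : ℝ, (C x : MvPolynomial (Fin m) ℝ).totalDegree ≤ 1 := by
    intro x
    rw [totalDegree_C]
    exact Nat.zero_le _
  unfold ibp
  split_ifs
  · exact (totalDegree_add _ _).trans (max_le (h0 _) (h _ _))
  · exact (totalDegree_add _ _).trans (max_le ((totalDegree_add _ _).trans
      (max_le (h0 _) (h _ _))) (h _ _))

/-! ### Polynomials of the time -/

/-- A polynomial of the time as a polynomial of all coordinates. -/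
noncomputable def tpl (i₁ : Fin m) (f : Polynomial ℝ) : MvPolynomial (Fin m) ℝ :=
  Polynomial.aeval (X i₁) f

theorem eval_tpl (i₁ : Fin m) (f : Polynomial ℝ) (b : Fin m → ℝ) :
    eval b (tpl i₁ f) = f.eval (b i₁) := by
  unfold tpl
  have h := Polynomial.hom_eval₂ f (algebraMap ℝ (MvPolynomial (Fin m) ℝ)) (eval b) (X i₁)
  rw [Polynomial.aeval_def, h, eval_X]
  have e : (eval b).comp (algebraMap ℝ (MvPolynomial (Fin m) ℝ)) = RingHom.id ℝ := by
    ext x
    simp
  rw [e, Polynomial.eval₂_id]

theorem totalDegree_tpl_le (i₁ : Fin m) (f : Polynomial ℝ) :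
    (tpl i₁ f).totalDegree ≤ f.natDegree := by
  unfold tpl
  rw [Polynomial.aeval_eq_sum_range]
  refine (totalDegree_finset_sum _ _).trans (Finset.sup_le fun n hn => ?_)
  rw [smul_eq_C_mul]
  refine (totalDegree_mul _ _).trans ?_
  rw [totalDegree_C, zero_add]
  refine (totalDegree_pow _ _).trans ?_
  rw [totalDegree_X, mul_one]
  exact Nat.lt_succ_iff.1 (Finset.mem_range.1 hn)

/-! ### Taylor polynomials -/

/-- The shift. -/
noncomputable def sft (x : Fin m → ℝ) (Q : MvPolynomial (Fin m) ℝ) : MvPolynomial (Fin m) ℝ :=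
  bind₁ (fun i => C (x i) + X i) Q

theorem eval_sft (x b : Fin m → ℝ) (Q : MvPolynomial (Fin m) ℝ) :
    eval b (sft x Q) = eval (fun i => x i + b i) Q := by
  unfold sft
  rw [eval, eval₂Hom_bind₁]
  congr 1
  congr 1
  funext j
  change eval b (C (x j) + X j) = _
  simp only [map_add, eval_C, eval_X]

theorem totalDegree_sft_le (x : Fin m → ℝ) (Q : MvPolynomial (Fin m) ℝ) :
    (sft x Q).totalDegree ≤ Q.totalDegree := by
  refine totalDegree_bind₁_le _ (fun j => ?_) Q
  refine (totalDegree_add _ _).trans (max_le ?_ ?_)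
  · rw [totalDegree_C]
    exact Nat.zero_le _
  · rw [totalDegree_X]

/-- The Taylor polynomial of total degree `K` at the point `x`. -/
noncomputable def tay (K : ℕ) (x : Fin m → ℝ) (Q : MvPolynomial (Fin m) ℝ) :
    MvPolynomial (Fin m) ℝ :=
  sft (fun i => - x i) (∑ s ∈ mons m K, monomial s (coeff s (sft x Q)))

theorem totalDegree_tay_le (K : ℕ) (x : Fin m → ℝ) (Q : MvPolynomial (Fin m) ℝ) :
    (tay K x Q).totalDegree ≤ K := by
  refine (totalDegree_sft_le _ _).trans ?_
  refine (totalDegree_finset_sum _ _).trans (Finset.sup_le fun s hs => ?_)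
  exact (totalDegree_monomial_le _ _).trans (mem_mons.1 hs)

theorem mons_sub {K D : ℕ} (h : K ≤ D) : mons m K ⊆ mons m D := fun _ hs =>
  mem_mons.2 ((mem_mons.1 hs).trans h)

/-- The error of the Taylor polynomial. -/
theorem tay_err (m K D : ℕ) : ∃ C : ℝ, 1 ≤ C ∧ ∀ (M : ℝ) (Q : MvPolynomial (Fin m) ℝ)
    (x : Fin m → ℝ), 0 ≤ M → Q.totalDegree ≤ D →
    (∀ b : Fin m → ℝ, (∀ i, |b i - x i| ≤ 1) → |eval b Q| ≤ M) →
    ∀ (ρ : ℝ) (b : Fin m → ℝ), 0 ≤ ρ → ρ ≤ 1 → (∀ i, |b i - x i| ≤ ρ) →
      |eval b Q - eval b (tay K x Q)| ≤ C * M * ρ ^ (K + 1) := by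
  classical
  obtain ⟨C₀, hC₀, h⟩ := Pool.Agent.H36.KBX.coef_bound m D
  refine ⟨(mons m D).card * C₀ + 1, ?_, fun M Q x hM hQ hb ρ b hρ hρ1 hbx => ?_⟩
  · have : (0 : ℝ) ≤ (mons m D).card * C₀ := by positivity
    linarith
  have hS : (sft x Q).totalDegree ≤ D := (totalDegree_sft_le _ _).trans hQ
  have hc : ∀ s, |coeff s (sft x Q)| ≤ C₀ * M := by
    refine h (sft x Q) M hS fun y hy => ?_
    rw [eval_sft]
    refine hb _ fun i => ?_
    have : x i + y i - x i = y i := by ring
    rw [this]
    exact hy i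
  set y : Fin m → ℝ := fun i => b i - x i with hy
  have e1 : eval b Q = ∑ s ∈ mons m D, coeff s (sft x Q) * ∏ i, y i ^ s i := by
    rw [← eval_of_degree hS, eval_sft]
    congr 1
    congr 1
    funext i
    rw [hy]
    ring
  have e2 : eval b (tay K x Q) = ∑ s ∈ mons m K, coeff s (sft x Q) * ∏ i, y i ^ s i := by
    unfold tay
    rw [eval_sft, map_sum]
    refine Finset.sum_congr rfl fun s _ => ?_
    rw [eval_monomial, Finsupp.prod_fintype]
    · congr 1
      refine Finset.prod_congr rfl fun i _ => ?_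
      rw [hy]
      ring_nf
    · intro i
      exact pow_zero _
  have hy1 : ∀ i, |y i| ≤ ρ := hbx
  -- the difference
  have e3 : eval b Q - eval b (tay K x Q) =
      ∑ s ∈ mons m D, if s ∈ mons m K then 0 else coeff s (sft x Q) * ∏ i, y i ^ s i := by
    rcases le_total K D with hKD | hKD
    · rw [e1, e2, ← Finset.sum_sdiff (mons_sub hKD), add_sub_cancel_right]
      rw [← Finset.sum_sdiff (mons_sub hKD)]
      have z1 : ∑ s ∈ mons m K, (if s ∈ mons m K then 0 else
          coeff s (sft x Q) * ∏ i, y i ^ s i) = 0 :=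
        Finset.sum_eq_zero fun s hs => if_pos hs
      rw [z1, add_zero]
      refine Finset.sum_congr rfl fun s hs => ?_
      rw [if_neg (Finset.mem_sdiff.1 hs).2]
    · have z1 : eval b (tay K x Q) = eval b Q := by
        rw [e1, e2]
        symm
        refine Finset.sum_subset (mons_sub hKD) fun s _ hs => ?_
        have : coeff s (sft x Q) = 0 := by
          by_contra hne
          exact hs (mem_mons.2 ((le_totalDegree (mem_support_iff.2 hne)).trans hS))
        rw [this, zero_mul]
      rw [z1, sub_self]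
      symm
      refine Finset.sum_eq_zero fun s hs => ?_
      rw [if_pos (mons_sub hKD hs)]
  rw [e3]
  refine (Finset.abs_sum_le_sum_abs _ _).trans ?_
  have h4 : ∀ s ∈ mons m D, |if s ∈ mons m K then 0 else coeff s (sft x Q) * ∏ i, y i ^ s i| ≤
      C₀ * M * ρ ^ (K + 1) := by
    intro s _
    split_ifs with hs
    · rw [abs_zero]
      positivity
    · rw [abs_mul]
      refine mul_le_mul (hc s) ?_ (abs_nonneg _) (by positivity)
      rw [Finset.abs_prod]
      have h5 : ∏ i, |y i ^ s i| ≤ ∏ i, ρ ^ s i := by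
        refine Finset.prod_le_prod (fun i _ => abs_nonneg _) fun i _ => ?_
        rw [abs_pow]
        exact pow_le_pow_left₀ (abs_nonneg _) (hy1 i) _
      refine h5.trans ?_
      rw [Finset.prod_pow_eq_pow_sum]
      refine pow_le_pow_of_le_one hρ hρ1 ?_
      have h6 : ¬ s.sum (fun _ e => e) ≤ K := fun h7 => hs (mem_mons.2 h7)
      have h7 : s.sum (fun _ e => e) = ∑ i, s i := Finsupp.sum_fintype _ _ fun _ => rfl
      omega
  refine (Finset.sum_le_sum h4).trans ?_
  rw [Finset.sum_const, nsmul_eq_mul]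
  have h8 : (0 : ℝ) ≤ M * ρ ^ (K + 1) := by positivity
  nlinarith

/-! ### Remez in time -/

/-- A polynomial of degree at most `K` which is small at `K + 1` separated points is small. -/
theorem lag_bound {K : ℕ} (f : Polynomial ℝ) (hf : f.natDegree ≤ K) (x : Fin (K + 1) → ℝ)
    (η ρ e : ℝ) (hη : 0 < η) (he : 0 ≤ e) (hsep : ∀ i j, i ≠ j → η ≤ |x i - x j|)
    (hx : ∀ i, |f.eval (x i)| ≤ e) (s : ℝ) (hs : ∀ i, |s - x i| ≤ ρ) :
    |f.eval s| ≤ (K + 1) * (ρ / η) ^ K * e := by
  classical
  have hinj : Set.InjOn x (Finset.univ : Finset (Fin (K + 1))) := by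
    intro i _ j _ hij
    by_contra hne
    have := hsep i j hne
    rw [hij, sub_self, abs_zero] at this
    linarith
  have hdeg : f.degree < ((Finset.univ : Finset (Fin (K + 1))).card : ℕ) := by
    rw [Finset.card_univ, Fintype.card_fin]
    refine lt_of_le_of_lt Polynomial.degree_le_natDegree ?_
    exact_mod_cast Nat.lt_succ_of_le hf
  have e1 := Lagrange.eq_interpolate hinj hdeg
  have e2 : f.eval s = ∑ i, f.eval (x i) * (Lagrange.basis Finset.univ x i).eval s := by
    conv_lhs => rw [e1]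
    rw [Lagrange.interpolate_apply, Polynomial.eval_finsetSum]
    refine Finset.sum_congr rfl fun i _ => ?_
    rw [Polynomial.eval_mul, Polynomial.eval_C]
  have hρ : 0 ≤ ρ := (abs_nonneg _).trans (hs 0)
  have hb : ∀ i, |(Lagrange.basis Finset.univ x i).eval s| ≤ (ρ / η) ^ K := by
    intro i
    unfold Lagrange.basis
    rw [Polynomial.eval_prod, Finset.abs_prod]
    have hcard : ((Finset.univ : Finset (Fin (K + 1))).erase i).card = K := by
      rw [Finset.card_erase_of_mem (Finset.mem_univ _), Finset.card_univ, Fintype.card_fin]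
      rfl
    calc ∏ j ∈ Finset.univ.erase i, |(Lagrange.basisDivisor (x i) (x j)).eval s|
        ≤ ∏ _j ∈ (Finset.univ : Finset (Fin (K + 1))).erase i, (ρ / η) := by
          refine Finset.prod_le_prod (fun _ _ => abs_nonneg _) fun j hj => ?_
          have hne : i ≠ j := (Finset.ne_of_mem_erase hj).symm
          unfold Lagrange.basisDivisor
          rw [Polynomial.eval_mul, Polynomial.eval_C, Polynomial.eval_sub, Polynomial.eval_X,
            Polynomial.eval_C, abs_mul, abs_inv, mul_comm, ← div_eq_mul_inv]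
          exact div_le_div₀ hρ (hs j) hη (hsep i j hne)
      _ = (ρ / η) ^ K := by rw [Finset.prod_const, hcard]
  rw [e2]
  refine (Finset.abs_sum_le_sum_abs _ _).trans ?_
  have h3 : ∀ i ∈ (Finset.univ : Finset (Fin (K + 1))),
      |f.eval (x i) * (Lagrange.basis Finset.univ x i).eval s| ≤ e * (ρ / η) ^ K := by
    intro i _
    rw [abs_mul]
    exact mul_le_mul (hx i) (hb i) (abs_nonneg _) he
  refine (Finset.sum_le_sum h3).trans ?_
  rw [Finset.sum_const, Finset.card_univ, Fintype.card_fin, nsmul_eq_mul]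
  push_cast
  rw [mul_comm e, mul_assoc]

/-- The polynomial of the time at fixed position. -/
noncomputable def tme (i₁ : Fin m) (b : Fin m → ℝ) (G : MvPolynomial (Fin m) ℝ) :
    Polynomial ℝ :=
  aeval (fun i => if i = i₁ then (Polynomial.X : Polynomial ℝ) else Polynomial.C (b i)) G

theorem eval_tme (i₁ : Fin m) (b : Fin m → ℝ) (G : MvPolynomial (Fin m) ℝ) (s : ℝ) :
    (tme i₁ b G).eval s = eval (Function.update b i₁ s) G := by
  have h := eval_lin i₁ b 0 G s
  have e1 : lin i₁ b 0 G = tme i₁ b G := by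
    unfold lin tme
    congr 1
    congr 1
    funext i
    split_ifs
    · rfl
    · simp
  rw [e1] at h
  rw [h]
  congr 1
  congr 1
  funext i
  unfold pnt
  by_cases hi : i = i₁
  · subst hi
    rw [if_pos rfl, Function.update_self]
  · rw [if_neg hi, Function.update_of_ne hi]
    simp

theorem natDegree_tme_le (i₁ : Fin m) (b : Fin m → ℝ) (G : MvPolynomial (Fin m) ℝ) :
    (tme i₁ b G).natDegree ≤ G.totalDegree := by
  have h := natDegree_lin_le i₁ b 0 G
  have e1 : lin i₁ b 0 G = tme i₁ b G := by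
    unfold lin tme
    congr 1
    congr 1
    funext i
    split_ifs
    · rfl
    · simp
  rwa [e1] at h

end Pool.SLO.FN
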