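import Pool.Agent.H28.SLO.Fin1

/-!
# The last step of the slope law, part 2: the new label
-/

set_option autoImplicit false

namespace Pool.SLO.FN

open Finset Real MvPolynomial
open Pool.Agent.H49.Ent Pool.Agent.H32.Dense Pool.STK Pool.KA Pool.KSAT Pool.K2S Pool.PB Pool.SLO

variable {m J : ℕ}

/-- The beginning of the window of length `2 ^ (-w')` in the time of the box. -/
noncomputable def t1 (F : Fam m J) (w w' : ℕ) (ω : F.Ω) : ℝ :=
  2 ^ w * ((F.T1 w' ω : ℝ) / 2 ^ w' - (F.T1 w ω : ℝ) / 2 ^ w)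

/-- The position in the box at the beginning of the window of length `2 ^ (-w')`. -/
noncomputable def xst (F : Fam m J) (i₁ : Fin m) (a w q w' : ℕ) (ω : F.Ω) : Fin m → ℝ :=
  pnt i₁ (yb F i₁ a w ω) (omb F i₁ a w q ω) (t1 F w w' ω)

/-- The part of the new label which is expanded. -/
noncomputable def qpl (F : Fam m J) (i₁ : Fin m) (a w q : ℕ) (Rp : MvPolynomial (Fin m) ℝ)
    (ω : F.Ω) : MvPolynomial (Fin m) ℝ :=
  Rp - tpl i₁ (lin i₁ (yb F i₁ a w ω) (omb F i₁ a w q ω) Rp)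

/-- **The new label**, in the coordinates of the box. -/
noncomputable def fnw (F : Fam m J) (i₁ : Fin m) (a w q e K w' : ℕ)
    (R Rp : MvPolynomial (Fin m) ℝ) (ω : F.Ω) : MvPolynomial (Fin m) ℝ :=
  R + C (1 / 2 ^ e) * (tpl i₁ (lpl F i₁ a w q e R ω) +
    tay K (xst F i₁ a w q w' ω) (qpl F i₁ a w q Rp ω))

/-- The new label in base coordinates. -/
noncomputable def fnb (F : Fam m J) (i₁ : Fin m) (a w q e K w' : ℕ)
    (R Rp : MvPolynomial (Fin m) ℝ) (ω : F.Ω) : MvPolynomial (Fin m) ℝ :=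
  push i₁ a w (cw F i₁ a w ω) (dq F i₁ q ω) (fnw F i₁ a w q e K w' R Rp ω)

theorem totalDegree_fnw_le (F : Fam m J) (i₁ : Fin m) (a w q e K w' : ℕ) (hK : 1 ≤ K)
    {R : MvPolynomial (Fin m) ℝ} (hR : R.totalDegree ≤ K) (Rp : MvPolynomial (Fin m) ℝ)
    (ω : F.Ω) : (fnw F i₁ a w q e K w' R Rp ω).totalDegree ≤ K := by
  unfold fnw
  refine (totalDegree_add _ _).trans (max_le hR ?_)
  refine (totalDegree_mul _ _).trans ?_
  rw [totalDegree_C, zero_add]
  refine (totalDegree_add _ _).trans (max_le ?_ (totalDegree_tay_le _ _ _))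
  exact (totalDegree_tpl_le _ _).trans (natDegree_lpl F i₁ a w q e K R hK hR ω)

theorem totalDegree_fnb_le (F : Fam m J) (i₁ : Fin m) (a w q e K w' : ℕ) (hK : 1 ≤ K)
    {R : MvPolynomial (Fin m) ℝ} (hR : R.totalDegree ≤ K) (Rp : MvPolynomial (Fin m) ℝ)
    (ω : F.Ω) : (fnb F i₁ a w q e K w' R Rp ω).totalDegree ≤ K :=
  (totalDegree_push_le _ _ _ _ _ _).trans (totalDegree_fnw_le F i₁ a w q e K w' hK hR Rp ω)

theorem totalDegree_qpl_le (F : Fam m J) (i₁ : Fin m) (a w q D : ℕ)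
    {Rp : MvPolynomial (Fin m) ℝ} (h : Rp.totalDegree ≤ D) (ω : F.Ω) :
    (qpl F i₁ a w q Rp ω).totalDegree ≤ D := by
  unfold qpl
  refine (totalDegree_sub _ _).trans (max_le h ?_)
  exact (totalDegree_tpl_le _ _).trans ((natDegree_lin_le _ _ _ _).trans h)

theorem eval_qpl (F : Fam m J) (i₁ : Fin m) (a w q : ℕ) (Rp : MvPolynomial (Fin m) ℝ)
    (ω : F.Ω) (b : Fin m → ℝ) : eval b (qpl F i₁ a w q Rp ω) = eval b Rp -
      eval (pnt i₁ (yb F i₁ a w ω) (omb F i₁ a w q ω) (b i₁)) Rp := by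
  unfold qpl
  rw [map_sub, eval_tpl, eval_lin]

/-- The window of length `2 ^ (-w)` is determined by the window of length `2 ^ (-w')`. -/
theorem slam_of_slam {F : Fam m J} {w w' : ℕ} (h : w ≤ w') (h' : w' ≤ J) {ω ω' : F.Ω}
    (e : slam F w' ω = slam F w' ω') : slam F w ω = slam F w ω' := by
  rw [slam_coarse F h h' ω, slam_coarse F h h' ω', e]

theorem fnb_of_slam {F : Fam m J} {i₁ : Fin m} {a w q e K w' : ℕ}
    {R Rp : ((Fin m → ℝ) × (Fin m → ℝ)) × F.ζ × ℕ → MvPolynomial (Fin m) ℝ}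
    (hw : w ≤ w') (hw' : w' ≤ J) {ω ω' : F.Ω} (h : slam F w' ω = slam F w' ω') :
    fnb F i₁ a w q e K w' (R (slam F w ω)) (Rp (slam F w ω)) ω =
      fnb F i₁ a w q e K w' (R (slam F w ω')) (Rp (slam F w ω')) ω' := by
  have h1 := slam_of_slam hw hw' h
  obtain ⟨c1, c2, c3, c4, -⟩ := box_of_slam (i₁ := i₁) (a := a) (q := q) h1
  have c6 : t1 F w w' ω = t1 F w w' ω' := by
    unfold t1
    rw [(of_slam h).1, (of_slam h1).1]
  unfold fnb fnw xst qpl
  rw [c1, c2, c3, c4, c6, h1, lpl_of_slam (i₁ := i₁) (a := a) (q := q) h1]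

/-! ### The error at the time of the sample -/

/-- The time in units of the window. -/
theorem tw_eq (F : Fam m J) (w : ℕ) (ω : F.Ω) :
    F.tw w ω = 2 ^ w * (F.t ω - (F.T1 w ω : ℝ) / 2 ^ w) := by
  unfold Fam.tw
  have : (2 : ℝ) ^ w ≠ 0 := by positivity
  field_simp

theorem tw_mem (F : Fam m J) {w : ℕ} (hw : w ≤ J) (ω : F.Ω) :
    0 ≤ F.tw w ω ∧ F.tw w ω < 1 := by
  have hJ : (2 : ℝ) ^ J = 2 ^ w * 2 ^ (J - w) := by
    rw [← pow_add]
    congr 1
    omega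
  have h1 : F.T1 w ω * 2 ^ (J - w) ≤ F.T ω := Nat.div_mul_le_self _ _
  have h2 : F.T ω < (F.T1 w ω + 1) * 2 ^ (J - w) := by
    have h3 := Nat.lt_mul_div_succ (F.T ω) (show 0 < 2 ^ (J - w) by positivity)
    unfold Fam.T1
    rw [mul_comm]
    exact h3
  have h1' : (F.T1 w ω : ℝ) * 2 ^ (J - w) ≤ F.T ω := by exact_mod_cast h1
  have h2' : (F.T ω : ℝ) < ((F.T1 w ω : ℝ) + 1) * 2 ^ (J - w) := by exact_mod_cast h2
  have hp : (0 : ℝ) < 2 ^ (J - w) := by positivity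
  have hw0 : (0 : ℝ) < 2 ^ w := by positivity
  have e : F.tw w ω = (F.T ω : ℝ) / 2 ^ (J - w) - F.T1 w ω := by
    rw [tw_eq]
    unfold Fam.t
    rw [hJ]
    field_simp
  rw [e]
  constructor
  · rw [sub_nonneg, le_div_iff₀ hp]
    exact h1'
  · rw [sub_lt_iff_lt_add, div_lt_iff₀ hp, add_comm]
    linarith

theorem tw_sub_t1 (F : Fam m J) (w u : ℕ) (ω : F.Ω) :
    F.tw w ω - t1 F w (w + u) ω = F.tw (w + u) ω / 2 ^ u := by
  rw [tw_eq, tw_eq]
  unfold t1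
  have h1 : (2 : ℝ) ^ w ≠ 0 := by positivity
  have h2 : (2 : ℝ) ^ u ≠ 0 := by positivity
  rw [pow_add]
  field_simp
  ring

/-- Time in the box of a point with the time of the sample. -/
theorem ib_time (F : Fam m J) (i₁ : Fin m) (a w q : ℕ) (ω : F.Ω) (b : Fin m → ℝ)
    (hb : b i₁ = F.t ω) :
    ib i₁ a w (cw F i₁ a w ω) (dq F i₁ q ω) b i₁ = F.tw w ω := by
  unfold ib cw
  rw [if_pos rfl, if_pos rfl, hb, tw_eq]

theorem pb_time (F : Fam m J) (i₁ : Fin m) (a w q : ℕ) (ω : F.Ω) :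
    pb F i₁ a w q ω i₁ = F.tw w ω := by
  unfold pb pnt
  rw [if_pos rfl]

theorem ib_pb (F : Fam m J) (i₁ : Fin m) (a w q : ℕ) (ω : F.Ω) :
    ib i₁ a w (cw F i₁ a w ω) (dq F i₁ q ω) (bp F i₁ ω) = pb F i₁ a w q ω := by
  rw [← sb_pb F i₁ a w q ω, ib_sb]

theorem ib_sub (i₁ : Fin m) (a w : ℕ) (c D b b' : Fin m → ℝ) (h : b i₁ = b' i₁) (j : Fin m)
    (hj : j ≠ i₁) : ib i₁ a w c D b j - ib i₁ a w c D b' j = 2 ^ a * (b j - b' j) := by
  unfold ib
  rw [if_neg hj, if_neg hj, h]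
  ring

theorem omb_le_one (F : Fam m J) (i₁ : Fin m) {a w q : ℕ} (h : a ≤ w + q) (ω : F.Ω)
    (j : Fin m) : 0 ≤ omb F i₁ a w q ω j ∧ omb F i₁ a w q ω j ≤ 1 := by
  refine ⟨(omb_mem F i₁ a w q ω j).1, (omb_mem F i₁ a w q ω j).2.trans ?_⟩
  rw [← pow_add, div_le_one (by positivity)]
  exact pow_le_pow_right₀ (by norm_num) h

/-- **The estimate at the time of the sample.** -/
theorem fnb_err (F : Fam m J) (i₁ : Fin m) {a w q e K D g u : ℕ} {C₀ M δ : ℝ}
    (hwu : w + u ≤ J) (haq : a ≤ w + q) (hu : 2 ≤ u) (hM : 0 ≤ M)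
    (hC : ∀ (M : ℝ) (Q : MvPolynomial (Fin m) ℝ) (x : Fin m → ℝ), 0 ≤ M → Q.totalDegree ≤ D →
      (∀ b : Fin m → ℝ, (∀ i, |b i - x i| ≤ 1) → |eval b Q| ≤ M) →
      ∀ (ρ : ℝ) (b : Fin m → ℝ), 0 ≤ ρ → ρ ≤ 1 → (∀ i, |b i - x i| ≤ ρ) →
        |eval b Q - eval b (tay K x Q)| ≤ C₀ * M * ρ ^ (K + 1))
    (R Rp Z : MvPolynomial (Fin m) ℝ) (hRp : Rp.totalDegree ≤ D)
    (hRM : ∀ b : Fin m → ℝ, (∀ i, |b i| ≤ 3) → |eval b Rp| ≤ M) (ω : F.Ω)
    (hx : |F.x ω i₁ - eval (bp F i₁ ω) Z| ≤ 1 / 2 ^ g)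
    (hg : ∀ b : Fin m → ℝ, b i₁ = F.tw w ω → (∀ j, |b j| ≤ 3) →
      |shp e i₁ (plb F i₁ a w q ω Z) R b - eval b Rp| ≤ δ)
    (b : Fin m → ℝ) (hb1 : b i₁ = F.t ω)
    (hb2 : ∀ j, j ≠ i₁ → |b j - F.x ω j| ≤ 2 / 2 ^ (a + u)) :
    |eval b Z - eval b (fnb F i₁ a w q e K (w + u) R Rp ω)| ≤
      (2 * δ + C₀ * (2 * M) * (4 / 2 ^ u) ^ (K + 1)) / 2 ^ e + 1 / 2 ^ g := by
  set z := ib i₁ a w (cw F i₁ a w ω) (dq F i₁ q ω) b with hz
  set pbx := pb F i₁ a w q ω with hpb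
  have hzt : z i₁ = F.tw w ω := ib_time F i₁ a w q ω b hb1
  have hpt : pbx i₁ = F.tw w ω := pb_time F i₁ a w q ω
  have htw := tw_mem F (show w ≤ J by omega) ω
  have htw' := tw_mem F hwu ω
  have hu0 : (0 : ℝ) < 2 ^ u := by positivity
  have hu4 : (4 : ℝ) ≤ 2 ^ u := by
    calc (4 : ℝ) = 2 ^ 2 := by norm_num
      _ ≤ 2 ^ u := pow_le_pow_right₀ (by norm_num) hu
  have hpj : ∀ j, j ≠ i₁ → 0 ≤ pbx j ∧ pbx j ≤ 2 := by
    intro j hj
    have h1 := yb_mem F i₁ a w ω j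
    have h2 := omb_le_one F i₁ haq ω j
    have h3 : pbx j = yb F i₁ a w ω j + F.tw w ω * omb F i₁ a w q ω j := by
      rw [hpb]
      unfold pb pnt
      rw [if_neg hj]
    rw [h3]
    constructor
    · have := mul_nonneg htw.1 h2.1
      linarith [h1.1]
    · have : F.tw w ω * omb F i₁ a w q ω j ≤ 1 * 1 :=
        mul_le_mul htw.2.le h2.2 h2.1 zero_le_one
      linarith [h1.2]
  have hzp : ∀ j, j ≠ i₁ → |z j - pbx j| ≤ 2 / 2 ^ u := by
    intro j hj
    have h1 : z j - pbx j = 2 ^ a * (b j - bp F i₁ ω j) := by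
      rw [hz, hpb, ← ib_pb F i₁ a w q ω]
      refine ib_sub i₁ a w _ _ _ _ ?_ j hj
      rw [hb1]
      unfold bp
      rw [Function.update_self]
    have h2 : bp F i₁ ω j = F.x ω j := by
      unfold bp
      rw [Function.update_of_ne hj]
    rw [h1, h2, abs_mul, abs_of_pos (show (0 : ℝ) < 2 ^ a by positivity)]
    calc (2 : ℝ) ^ a * |b j - F.x ω j| ≤ 2 ^ a * (2 / 2 ^ (a + u)) :=
          mul_le_mul_of_nonneg_left (hb2 j hj) (by positivity)
      _ = 2 / 2 ^ u := by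
          rw [pow_add]
          field_simp
  have hz3 : ∀ j, |z j| ≤ 3 := by
    intro j
    by_cases hj : j = i₁
    · rw [hj, hzt, abs_of_nonneg htw.1]
      linarith [htw.2]
    · have h1 := hzp j hj
      have h2 := hpj j hj
      have h3 : (2 : ℝ) / 2 ^ u ≤ 1 := by
        rw [div_le_one hu0]
        linarith
      have h4 := abs_le.1 (h1.trans h3)
      rw [abs_le]
      constructor <;> linarith [h4.1, h4.2, h2.1, h2.2]
  have hp3 : ∀ j, |pbx j| ≤ 3 := by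
    intro j
    by_cases hj : j = i₁
    · rw [hj, hpt, abs_of_nonneg htw.1]
      linarith [htw.2]
    · have h2 := hpj j hj
      rw [abs_of_nonneg h2.1]
      linarith [h2.2]
  -- the distance to the centre of the expansion
  set x1 := xst F i₁ a w q (w + u) ω with hx1
  have hx1t : x1 i₁ = t1 F w (w + u) ω := by
    rw [hx1]
    unfold xst pnt
    rw [if_pos rfl]
  have hdt := tw_sub_t1 F w u ω
  have hdt1 : |F.tw w ω - t1 F w (w + u) ω| ≤ 1 / 2 ^ u := by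
    rw [hdt, abs_div, abs_of_pos hu0, abs_of_nonneg htw'.1]
    exact div_le_div_of_nonneg_right htw'.2.le hu0.le
  have hzx : ∀ i, |z i - x1 i| ≤ 4 / 2 ^ u := by
    intro i
    have e4 : (4 : ℝ) / 2 ^ u = 2 / 2 ^ u + 1 / 2 ^ u + 1 / 2 ^ u := by
      field_simp
      ring
    have hpos : (0 : ℝ) ≤ 1 / 2 ^ u := by positivity
    by_cases hi : i = i₁
    · rw [hi, hzt, hx1t]
      have : (2 : ℝ) / 2 ^ u = 1 / 2 ^ u + 1 / 2 ^ u := by
        field_simp
        ring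
      linarith
    · have h1 := hzp i hi
      have h2 := omb_le_one F i₁ haq ω i
      have h3 : pbx i - x1 i = (F.tw w ω - t1 F w (w + u) ω) * omb F i₁ a w q ω i := by
        rw [hpb, hx1]
        unfold pb xst pnt
        rw [if_neg hi, if_neg hi]
        ring
      have h4 : |pbx i - x1 i| ≤ 1 / 2 ^ u := by
        rw [h3, abs_mul, abs_of_nonneg h2.1]
        calc |F.tw w ω - t1 F w (w + u) ω| * omb F i₁ a w q ω i ≤ 1 / 2 ^ u * 1 :=
              mul_le_mul hdt1 h2.2 h2.1 hpos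
          _ = 1 / 2 ^ u := mul_one _
      have h5 : z i - x1 i = (z i - pbx i) + (pbx i - x1 i) := by ring
      rw [h5]
      refine (abs_add_le _ _).trans ?_
      linarith
  have hρ1 : (4 : ℝ) / 2 ^ u ≤ 1 := by
    rw [div_le_one hu0]
    exact hu4
  -- the polynomial which is expanded is bounded
  have hx1b : ∀ i, 0 ≤ x1 i ∧ x1 i ≤ 2 := by
    have ht1 : 0 ≤ t1 F w (w + u) ω ∧ t1 F w (w + u) ω ≤ 1 := by
      constructor
      · unfold t1
        refine mul_nonneg (by positivity) ?_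
        have h1 : F.T1 w ω * 2 ^ u ≤ F.T1 (w + u) ω := by
          unfold Fam.T1
          have e1 : J - w = (J - (w + u)) + u := by omega
          rw [e1, pow_add, ← Nat.div_div_eq_div_mul]
          exact Nat.div_mul_le_self _ _
        have h2 : (F.T1 w ω : ℝ) * 2 ^ u ≤ F.T1 (w + u) ω := by exact_mod_cast h1
        rw [sub_nonneg, div_le_div_iff₀ (by positivity) (by positivity), pow_add]
        have h3 : (0 : ℝ) < 2 ^ w := by positivity
        nlinarith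
      · have h1 : 0 ≤ F.tw (w + u) ω / 2 ^ u := div_nonneg htw'.1 hu0.le
        linarith [htw.2]
    intro i
    by_cases hi : i = i₁
    · rw [hi, hx1t]
      exact ⟨ht1.1, by linarith [ht1.2]⟩
    · have h1 := yb_mem F i₁ a w ω i
      have h2 := omb_le_one F i₁ haq ω i
      have h3 : x1 i = yb F i₁ a w ω i + t1 F w (w + u) ω * omb F i₁ a w q ω i := by
        rw [hx1]
        unfold xst pnt
        rw [if_neg hi]
      rw [h3]
      constructor
      · have := mul_nonneg ht1.1 h2.1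
        linarith [h1.1]
      · have : t1 F w (w + u) ω * omb F i₁ a w q ω i ≤ 1 * 1 :=
          mul_le_mul ht1.2 h2.2 h2.1 zero_le_one
        linarith [h1.2]
  have hQM : ∀ b : Fin m → ℝ, (∀ i, |b i - x1 i| ≤ 1) →
      |eval b (qpl F i₁ a w q Rp ω)| ≤ 2 * M := by
    intro b' hb'
    rw [eval_qpl]
    have h3 : ∀ i, |b' i| ≤ 3 := by
      intro i
      have h1 := abs_le.1 (hb' i)
      have h2 := hx1b i
      rw [abs_le]
      constructor <;> linarith [h1.1, h1.2, h2.1, h2.2]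
    have ht : |b' i₁| ≤ 2 := by
      have h1 := abs_le.1 (hb' i₁)
      have h2 := hx1b i₁
      rw [hx1t] at h1
      have h4 : 0 ≤ t1 F w (w + u) ω := by rw [← hx1t]; exact h2.1
      have h5 : t1 F w (w + u) ω ≤ 1 := by
        have h6 : 0 ≤ F.tw (w + u) ω / 2 ^ u := div_nonneg htw'.1 hu0.le
        linarith [htw.2]
      rw [abs_le]
      constructor <;> linarith [h1.1, h1.2]
    have h4 : ∀ i, |pnt i₁ (yb F i₁ a w ω) (omb F i₁ a w q ω) (b' i₁) i| ≤ 3 := by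
      intro i
      unfold pnt
      split_ifs with hi
      · linarith
      · have h1 := yb_mem F i₁ a w ω i
        have h2 := omb_le_one F i₁ haq ω i
        refine (abs_add_le _ _).trans ?_
        rw [abs_mul, abs_of_nonneg h1.1, abs_of_nonneg h2.1]
        have : |b' i₁| * omb F i₁ a w q ω i ≤ 2 * 1 := mul_le_mul ht h2.2 h2.1 (by norm_num)
        linarith [h1.2]
    refine (abs_sub _ _).trans ?_
    linarith [hRM b' h3, hRM _ h4]
  have hT := hC (2 * M) (qpl F i₁ a w q Rp ω) x1 (by linarith)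
    (totalDegree_qpl_le F i₁ a w q D hRp ω) hQM (4 / 2 ^ u) z (by positivity) hρ1 hzx
  -- the identity
  have hid := identity F i₁ a w q e Z R ω
  have hs1 := hg z hzt hz3
  have hs2 := hg pbx hpt hp3
  have hev : eval b Z = eval z (plb F i₁ a w q ω Z) := by
    unfold plb
    rw [eval_pull, hz, sb_ib]
  have hev2 : eval b (fnb F i₁ a w q e K (w + u) R Rp ω) =
      eval z R + 1 / 2 ^ e * ((lpl F i₁ a w q e R ω).eval (F.tw w ω) +
        eval z (tay K x1 (qpl F i₁ a w q Rp ω))) := by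
    unfold fnb
    rw [eval_push, ← hz]
    unfold fnw
    rw [map_add, map_mul, eval_C, map_add, eval_tpl, hzt]
  have hq : eval z (qpl F i₁ a w q Rp ω) = eval z Rp - eval pbx Rp := by
    rw [eval_qpl, hzt]
    rfl
  have he0 : (0 : ℝ) < 2 ^ e := by positivity
  have hsz : shp e i₁ (plb F i₁ a w q ω Z) R z =
      2 ^ e * (eval z (plb F i₁ a w q ω Z) - eval z R) -
        nub e i₁ (plb F i₁ a w q ω Z) R (F.tw w ω) := by
    unfold shp
    rw [hzt]
  have hmain : 2 ^ e * (eval b Z - eval b (fnb F i₁ a w q e K (w + u) R Rp ω)) =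
      (shp e i₁ (plb F i₁ a w q ω Z) R z - eval z Rp) -
        (shp e i₁ (plb F i₁ a w q ω Z) R pbx - eval pbx Rp) -
        2 ^ e * (F.x ω i₁ - eval (bp F i₁ ω) Z) +
        (eval z (qpl F i₁ a w q Rp ω) - eval z (tay K x1 (qpl F i₁ a w q Rp ω))) := by
    rw [hev, hev2, hq, hsz]
    have e1 : (2 : ℝ) ^ e * (eval z R + 1 / 2 ^ e * ((lpl F i₁ a w q e R ω).eval (F.tw w ω) +
        eval z (tay K x1 (qpl F i₁ a w q Rp ω)))) = 2 ^ e * eval z R +
        ((lpl F i₁ a w q e R ω).eval (F.tw w ω) +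
        eval z (tay K x1 (qpl F i₁ a w q Rp ω))) := by
      field_simp
    rw [mul_sub, e1, hid]
    ring
  have habs : |2 ^ e * (eval b Z - eval b (fnb F i₁ a w q e K (w + u) R Rp ω))| ≤
      2 * δ + C₀ * (2 * M) * (4 / 2 ^ u) ^ (K + 1) + 2 ^ e * (1 / 2 ^ g) := by
    rw [hmain]
    have hx' : |2 ^ e * (F.x ω i₁ - eval (bp F i₁ ω) Z)| ≤ 2 ^ e * (1 / 2 ^ g) := by
      rw [abs_mul, abs_of_pos he0]
      exact mul_le_mul_of_nonneg_left hx he0.le
    refine (abs_add_le _ _).trans ?_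
    have k1 := abs_sub ((shp e i₁ (plb F i₁ a w q ω Z) R z - eval z Rp) -
        (shp e i₁ (plb F i₁ a w q ω Z) R pbx - eval pbx Rp))
        (2 ^ e * (F.x ω i₁ - eval (bp F i₁ ω) Z))
    have k2 := abs_sub (shp e i₁ (plb F i₁ a w q ω Z) R z - eval z Rp)
        (shp e i₁ (plb F i₁ a w q ω Z) R pbx - eval pbx Rp)
    linarith
  rw [abs_mul, abs_of_pos he0] at habs
  have e5 : (2 * δ + C₀ * (2 * M) * (4 / 2 ^ u) ^ (K + 1)) / 2 ^ e + 1 / 2 ^ g =
      (2 * δ + C₀ * (2 * M) * (4 / 2 ^ u) ^ (K + 1) + 2 ^ e * (1 / 2 ^ g)) / 2 ^ e := by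
    field_simp
  rw [e5, le_div_iff₀ he0, mul_comm]
  exact habs

end Pool.SLO.FN
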