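import Pool.Agent.H28.SLO.Fin2
import Pool.Agent.H39.SLO.Tms

/-!
# The last step of the slope law, part 3: the label on the larger window

If the shapes of the samples are, for most samples, the values of one polynomial of the window, up
to `δ` in units `2 ^ (-e)`, then there is a label with radius and window `u` digits smaller and with
precision `e + (K + 1) u - O(1)`, if the ball label has precision `g` large enough.
-/

set_option autoImplicit false

namespace Pool.SLO.FN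

open Finset Real MvPolynomial
open Pool.Agent.H49.Ent Pool.Agent.H32.Dense Pool.STK Pool.KA Pool.KSAT Pool.K2S Pool.PB Pool.SLO

variable {m J : ℕ}

/-- The type of the windows of lines. -/
abbrev Sl (F : Fam m J) : Type := ((Fin m → ℝ) × (Fin m → ℝ)) × F.ζ × ℕ

/-- The sample is good: the shape of the own sheet at its time is near to the polynomial `Rp`. -/
def Gd (F : Fam m J) (i₁ : Fin m) (a w q e : ℕ) (R Rp : Sl F → MvPolynomial (Fin m) ℝ)
    (Z : F.Ω → MvPolynomial (Fin m) ℝ) (δ : ℝ) (ω : F.Ω) : Prop :=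
  ∀ b : Fin m → ℝ, b i₁ = F.tw w ω → (∀ j, |b j| ≤ 3) →
    |shp e i₁ (plb F i₁ a w q ω (Z ω)) (R (slam F w ω)) b - eval b (Rp (slam F w ω))| ≤ δ

/-- `K + 1` separated good samples in the window of length `2 ^ (-a')`. -/
def Sg (F : Fam m J) (K a' sp : ℕ) (E : F.Ω → Prop) (ω : F.Ω) : Prop :=
  ∃ v : Fin (K + 1) → F.Ω, (∀ i, E (v i) ∧ slam F a' (v i) = slam F a' ω) ∧
    ∀ i j, i ≠ j → 1 / 2 ^ (a' + sp) ≤ |F.t (v i) - F.t (v j)|

theorem t_near (F : Fam m J) {a' : ℕ} (ha : a' ≤ J) {ω ω' : F.Ω}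
    (h : slam F a' ω = slam F a' ω') : |F.t ω - F.t ω'| ≤ 1 / 2 ^ a' := by
  have h1 := tw_mem F ha ω
  have h2 := tw_mem F ha ω'
  rw [tw_eq] at h1 h2
  rw [(of_slam h).1] at h1
  have hp : (0 : ℝ) < 2 ^ a' := by positivity
  have h3 : |2 ^ a' * (F.t ω - F.t ω')| ≤ 1 := by
    rw [abs_le]
    constructor <;> nlinarith [h1.1, h1.2, h2.1, h2.2]
  rw [abs_mul, abs_of_pos hp] at h3
  rw [le_div_iff₀ hp, mul_comm]
  exact h3

theorem x_near (F : Fam m J) {a' : ℕ} (ha : a' ≤ J) {ω ω' : F.Ω}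
    (h : slam F a' ω = slam F a' ω') (j : Fin m) : |F.x ω j - F.x ω' j| ≤ 1 / 2 ^ a' := by
  have h1 := t_near F ha h
  have h2 := Prod.ext_iff.mp (Prod.ext_iff.mp h).1
  have eu : F.u ω = F.u ω' := h2.1
  have ed : F.d ω = F.d ω' := h2.2
  have h3 : F.x ω j - F.x ω' j = (F.t ω - F.t ω') * F.d ω j := by
    unfold Fam.x
    rw [eu, ← ed]
    ring
  rw [h3, abs_mul]
  calc |F.t ω - F.t ω'| * |F.d ω j| ≤ 1 / 2 ^ a' * 1 :=
        mul_le_mul h1 (F.dir ω j) (abs_nonneg _) (by positivity)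
    _ = 1 / 2 ^ a' := mul_one _

open Classical in
/-- **The label on the larger window**, for one sample. -/
theorem fin_pt (F : Fam m J) (i₁ : Fin m) {a w q e K D g u sp : ℕ} {C₀ M δ : ℝ}
    (hK : 1 ≤ K) (hau : a + u ≤ J) (hwa : w ≤ a) (haq : a ≤ w + q) (hu : 2 ≤ u) (hM : 0 ≤ M)
    (hδ : 0 ≤ δ) (hC₀ : 0 ≤ C₀)
    (hC : ∀ (M : ℝ) (Q : MvPolynomial (Fin m) ℝ) (x : Fin m → ℝ), 0 ≤ M → Q.totalDegree ≤ D →
      (∀ b : Fin m → ℝ, (∀ i, |b i - x i| ≤ 1) → |eval b Q| ≤ M) →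
      ∀ (ρ : ℝ) (b : Fin m → ℝ), 0 ≤ ρ → ρ ≤ 1 → (∀ i, |b i - x i| ≤ ρ) →
        |eval b Q - eval b (tay K x Q)| ≤ C₀ * M * ρ ^ (K + 1))
    (R Rp : Sl F → MvPolynomial (Fin m) ℝ) (hR : ∀ s, (R s).totalDegree ≤ K)
    (hRp : ∀ s, (Rp s).totalDegree ≤ D)
    (hRM : ∀ s, ∀ b : Fin m → ℝ, (∀ i, |b i| ≤ 3) → |eval b (Rp s)| ≤ M)
    (Z : F.Ω → MvPolynomial (Fin m) ℝ) (HZ : Sl F → MvPolynomial (Fin m) ℝ)
    (hHZ : ∀ s, (HZ s).totalDegree ≤ K) (A : F.Ω → Prop)
    (hA : ∀ ω, A ω → |F.x ω i₁ - eval (bp F i₁ ω) (Z ω)| ≤ 1 / 2 ^ g ∧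
      ∀ b : Fin m → ℝ, (∀ j, |b j - bp F i₁ ω j| ≤ 1 / 2 ^ a) →
        |eval b (Z ω) - eval b (HZ (slam F a ω))| ≤ 1 / 2 ^ g)
    (ω : F.Ω) (hω : A ω)
    (hS : Sg F K (a + u) sp (fun ω => A ω ∧ Gd F i₁ a w q e R Rp Z δ ω) ω)
    (b : Fin m → ℝ) (hb : ∀ j, |b j - bp F i₁ ω j| ≤ 1 / 2 ^ (a + u)) :
    |eval b (Z ω) - eval b (fnb F i₁ a w q e K (w + u) (R (slam F w ω)) (Rp (slam F w ω)) ω)| ≤
      1 / 2 ^ g + (K + 1) * (2 * 2 ^ sp) ^ K *
        ((2 * δ + C₀ * (2 * M) * (4 / 2 ^ u) ^ (K + 1)) / 2 ^ e + 2 * (1 / 2 ^ g)) := by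
  obtain ⟨v, hv1, hv2⟩ := hS
  have hwu : w + u ≤ J := by omega
  have ha2 : (2 : ℝ) / 2 ^ (a + u) ≤ 1 / 2 ^ a := by
    rw [pow_add, div_le_div_iff₀ (by positivity) (by positivity)]
    have h4 : (4 : ℝ) ≤ 2 ^ u := by
      calc (4 : ℝ) = 2 ^ 2 := by norm_num
        _ ≤ 2 ^ u := pow_le_pow_right₀ (by norm_num) hu
    have : (0 : ℝ) < 2 ^ a := by positivity
    nlinarith
  have ha1 : (1 : ℝ) / 2 ^ (a + u) ≤ 1 / 2 ^ a := by
    refine le_trans ?_ ha2
    exact div_le_div_of_nonneg_right (by norm_num) (by positivity)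
  set Hn := fnb F i₁ a w q e K (w + u) (R (slam F w ω)) (Rp (slam F w ω)) ω with hHn
  set φ := tme i₁ b (HZ (slam F a ω) - Hn) with hφ
  have hdeg : φ.natDegree ≤ K := by
    refine (natDegree_tme_le _ _ _).trans ((totalDegree_sub _ _).trans (max_le (hHZ _) ?_))
    exact totalDegree_fnb_le F i₁ a w q e K (w + u) hK (hR _) _ ω
  have hbt : |b i₁ - F.t ω| ≤ 1 / 2 ^ (a + u) := by
    have h1 := hb i₁
    unfold bp at h1
    rwa [Function.update_self] at h1
  have hbj : ∀ j, j ≠ i₁ → |b j - F.x ω j| ≤ 1 / 2 ^ (a + u) := by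
    intro j hj
    have h1 := hb j
    unfold bp at h1
    rwa [Function.update_of_ne hj] at h1
  -- the values at the times of the good samples
  have hval : ∀ i, |φ.eval (F.t (v i))| ≤
      (2 * δ + C₀ * (2 * M) * (4 / 2 ^ u) ^ (K + 1)) / 2 ^ e + 2 * (1 / 2 ^ g) := by
    intro i
    obtain ⟨⟨hAv, hGv⟩, hsl⟩ := hv1 i
    obtain ⟨hx, hball⟩ := hA (v i) hAv
    have hsw : slam F w (v i) = slam F w ω := slam_of_slam (by omega) hau hsl
    have hsa : slam F a (v i) = slam F a ω := slam_of_slam (by omega) hau hsl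
    have hsu : slam F (w + u) (v i) = slam F (w + u) ω := slam_of_slam (by omega) hau hsl
    set b' := Function.update b i₁ (F.t (v i)) with hb'
    have hb't : b' i₁ = F.t (v i) := by
      rw [hb', Function.update_self]
    have hb'j : ∀ j, j ≠ i₁ → |b' j - F.x (v i) j| ≤ 2 / 2 ^ (a + u) := by
      intro j hj
      have h1 := hbj j hj
      have h2 := x_near F hau hsl j
      have h3 : b' j = b j := by
        rw [hb', Function.update_of_ne hj]
      have h4 : b' j - F.x (v i) j = (b j - F.x ω j) + -(F.x (v i) j - F.x ω j) := by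
        rw [h3]
        ring
      rw [h4]
      refine (abs_add_le _ _).trans ?_
      rw [abs_neg]
      have h5 : (2 : ℝ) / 2 ^ (a + u) = 1 / 2 ^ (a + u) + 1 / 2 ^ (a + u) := by
        field_simp
        ring
      rw [h5]
      exact add_le_add h1 h2
    have e1 : |eval b' (Z (v i)) - eval b' (HZ (slam F a ω))| ≤ 1 / 2 ^ g := by
      rw [← hsa]
      refine hball b' fun j => ?_
      unfold bp
      by_cases hj : j = i₁
      · subst hj
        rw [Function.update_self, hb't, sub_self, abs_zero]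
        positivity
      · rw [Function.update_of_ne hj]
        exact (hb'j j hj).trans ha2
    have e2 := fnb_err F i₁ (K := K) (C₀ := C₀) (M := M) (δ := δ) hwu haq hu hM hC
      (R (slam F w (v i))) (Rp (slam F w (v i))) (Z (v i)) (hRp _) (hRM _) (v i) hx hGv b' hb't hb'j
    have e3 : fnb F i₁ a w q e K (w + u) (R (slam F w (v i))) (Rp (slam F w (v i))) (v i) = Hn :=
      fnb_of_slam (by omega) hwu hsu
    rw [e3] at e2
    have e4 : φ.eval (F.t (v i)) = eval b' (HZ (slam F a ω)) - eval b' Hn := by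
      rw [hφ, eval_tme, map_sub]
    rw [e4]
    have e5 : eval b' (HZ (slam F a ω)) - eval b' Hn =
        -(eval b' (Z (v i)) - eval b' (HZ (slam F a ω))) + (eval b' (Z (v i)) - eval b' Hn) := by
      ring
    rw [e5]
    refine (abs_add_le _ _).trans ?_
    rw [abs_neg]
    linarith
  have hE0 : 0 ≤ (2 * δ + C₀ * (2 * M) * (4 / 2 ^ u) ^ (K + 1)) / 2 ^ e + 2 * (1 / 2 ^ g) := by
    positivity
  have hlag := lag_bound φ hdeg (fun i => F.t (v i)) (1 / 2 ^ (a + u + sp)) (2 / 2 ^ (a + u)) _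
    (by positivity) hE0 hv2 hval (b i₁) (by
      intro i
      have h1 := t_near F hau (hv1 i).2
      have h3 : b i₁ - F.t (v i) = (b i₁ - F.t ω) + -(F.t (v i) - F.t ω) := by ring
      rw [h3]
      refine (abs_add_le _ _).trans ?_
      rw [abs_neg]
      have h5 : (2 : ℝ) / 2 ^ (a + u) = 1 / 2 ^ (a + u) + 1 / 2 ^ (a + u) := by
        field_simp
        ring
      rw [h5]
      exact add_le_add hbt h1)
  have hratio : (2 : ℝ) / 2 ^ (a + u) / (1 / 2 ^ (a + u + sp)) = 2 * 2 ^ sp := by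
    rw [pow_add _ (a + u) sp]
    field_simp
  rw [hratio] at hlag
  have e6 : φ.eval (b i₁) = eval b (HZ (slam F a ω)) - eval b Hn := by
    rw [hφ, eval_tme, Function.update_eq_self, map_sub]
  rw [e6] at hlag
  have e7 : |eval b (Z ω) - eval b (HZ (slam F a ω))| ≤ 1 / 2 ^ g :=
    (hA ω hω).2 b fun j => (hb j).trans ha1
  have e8 : eval b (Z ω) - eval b Hn = (eval b (Z ω) - eval b (HZ (slam F a ω))) +
      (eval b (HZ (slam F a ω)) - eval b Hn) := by ring
  rw [e8]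
  exact (abs_add_le _ _).trans (add_le_add e7 hlag)

open Classical in
/-- A function of the samples which is a function of the window, as a function. -/
noncomputable def ofsl (F : Fam m J) (w' : ℕ) (Φ : F.Ω → MvPolynomial (Fin m) ℝ) (s : Sl F) :
    MvPolynomial (Fin m) ℝ :=
  if h : ∃ ω, slam F w' ω = s then Φ h.choose else 0

theorem ofsl_eq (F : Fam m J) (w' : ℕ) (Φ : F.Ω → MvPolynomial (Fin m) ℝ)
    (h : ∀ ω ω', slam F w' ω = slam F w' ω' → Φ ω = Φ ω') (ω : F.Ω) :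
    ofsl F w' Φ (slam F w' ω) = Φ ω := by
  unfold ofsl
  have hx : ∃ ω', slam F w' ω' = slam F w' ω := ⟨ω, rfl⟩
  rw [dif_pos hx]
  exact h _ _ hx.choose_spec

theorem totalDegree_ofsl (F : Fam m J) (w' K : ℕ) (Φ : F.Ω → MvPolynomial (Fin m) ℝ)
    (h : ∀ ω, (Φ ω).totalDegree ≤ K) (s : Sl F) : (ofsl F w' Φ s).totalDegree ≤ K := by
  unfold ofsl
  split_ifs with hx
  · exact h _
  · rw [totalDegree_zero]
    exact Nat.zero_le _

end Pool.SLO.FN
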