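import Pool.Agent.H28.SLO.Fin3

/-!
# The last step of the slope law, part 4: the label
-/

set_option autoImplicit false

namespace Pool.SLO.FN

open Finset Real MvPolynomial
open Pool.Agent.H49.Ent Pool.Agent.H32.Dense Pool.STK Pool.KA Pool.KSAT Pool.K2S Pool.PB Pool.SLO

variable {m J : ℕ}

/-- **The label on the larger window.** -/
theorem fin_tb (F : Fam m J) (i₁ : Fin m) {r a w q e K D g u sp P' : ℕ} {C₀ M δ : ℝ}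
    (hK : 1 ≤ K) (hau : a + u ≤ J) (hwa : w ≤ a) (haq : a ≤ w + q) (hu : 2 ≤ u) (hM : 0 ≤ M)
    (hδ : 0 ≤ δ) (hC₀ : 0 ≤ C₀)
    (hC : ∀ (M : ℝ) (Q : MvPolynomial (Fin m) ℝ) (x : Fin m → ℝ), 0 ≤ M → Q.totalDegree ≤ D →
      (∀ b : Fin m → ℝ, (∀ i, |b i - x i| ≤ 1) → |eval b Q| ≤ M) →
      ∀ (ρ : ℝ) (b : Fin m → ℝ), 0 ≤ ρ → ρ ≤ 1 → (∀ i, |b i - x i| ≤ ρ) →
        |eval b Q - eval b (tay K x Q)| ≤ C₀ * M * ρ ^ (K + 1))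
    (R Rp : Sl F → MvPolynomial (Fin m) ℝ) (hR : ∀ s, (R s).totalDegree ≤ K)
    (hRp : ∀ s, (Rp s).totalDegree ≤ D)
    (hRM : ∀ s, ∀ b : Fin m → ℝ, (∀ i, |b i| ≤ 3) → |eval b (Rp s)| ≤ M)
    (G : (Fin m → ℤ) × (ℕ × F.ζ) → MvPolynomial (Fin m) ℝ) (HZ : Sl F → MvPolynomial (Fin m) ℝ)
    (hG : ∀ y, (G y).totalDegree ≤ K) (hHZ : ∀ s, (HZ s).totalDegree ≤ K) (A : F.Ω → Prop)
    (hA : ∀ ω, A ω → |F.x ω i₁ - eval (bp F i₁ ω) (G (ptr F r ω))| ≤ 1 / 2 ^ g ∧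
      (∀ j, |eval (bp F i₁ ω) (pderiv j (G (ptr F r ω)))| ≤ 2 * m) ∧
      ∀ b : Fin m → ℝ, (∀ j, |b j - bp F i₁ ω j| ≤ 1 / 2 ^ a) →
        |eval b (G (ptr F r ω)) - eval b (HZ (slam F a ω))| ≤ 1 / 2 ^ g)
    (hP' : P' ≤ g)
    (hE : 1 / 2 ^ g + (K + 1) * (2 * 2 ^ sp) ^ K *
      ((2 * δ + C₀ * (2 * M) * (4 / 2 ^ u) ^ (K + 1)) / 2 ^ e + 2 * (1 / 2 ^ g)) ≤
        (1 : ℝ) / 2 ^ P') :
    Tb F i₁ r K (a + u) (w + u) P' (fun ω => A ω ∧ Sg F K (a + u) sp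
      (fun ω => A ω ∧ Gd F i₁ a w q e R Rp (fun ω => G (ptr F r ω)) δ ω) ω) := by
  have hwu : w + u ≤ J := by omega
  refine ⟨G, ofsl F (w + u) (fun ω => fnb F i₁ a w q e K (w + u) (R (slam F w ω))
    (Rp (slam F w ω)) ω), hG, totalDegree_ofsl F (w + u) K _ fun ω =>
      totalDegree_fnb_le F i₁ a w q e K (w + u) hK (hR _) _ ω, fun ω hω => ?_⟩
  obtain ⟨hAω, hS⟩ := hω
  obtain ⟨h1, h2, -⟩ := hA ω hAω
  refine ⟨h1.trans (inv_mono hP'), h2, fun b hb => ?_⟩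
  have e1 : ofsl F (w + u) (fun ω => fnb F i₁ a w q e K (w + u) (R (slam F w ω))
      (Rp (slam F w ω)) ω) (slam F (w + u) ω) =
      fnb F i₁ a w q e K (w + u) (R (slam F w ω)) (Rp (slam F w ω)) ω :=
    ofsl_eq F (w + u) (fun ω => fnb F i₁ a w q e K (w + u) (R (slam F w ω))
      (Rp (slam F w ω)) ω)
      (fun ω ω' h => fnb_of_slam (F := F) (i₁ := i₁) (a := a) (w := w) (q := q) (e := e) (K := K)
        (w' := w + u) (R := R) (Rp := Rp) (Nat.le_add_right w u) hwu h) ω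
  rw [e1]
  have e2 := fin_pt F i₁ (g := g) (sp := sp) (M := M) (δ := δ) (C₀ := C₀) hK hau hwa haq hu hM hδ
    hC₀ hC R Rp hR hRp hRM (fun ω => G (ptr F r ω)) HZ
    hHZ A (fun ω h => ⟨(hA ω h).1, (hA ω h).2.2⟩) ω hAω hS b hb
  exact e2.trans hE

end Pool.SLO.FN
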