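import Pool.Agent.H28.SLO.Fin4
import Pool.Agent.H71.SLP.Stmts
import Pool.Agent.H25.M5.H1F

/-!
# The last step of the slope law, part 5: `Pool.SLF.FIN`
-/

set_option autoImplicit false

namespace Pool.SLO.FN

open Finset Real MvPolynomial
open Pool.Agent.H49.Ent Pool.Agent.H32.Dense Pool.STK Pool.KA Pool.KSAT Pool.K2S Pool.PB Pool.SLO

/-! ### The polynomial of the shapes -/

section pol

variable {k : ℕ}

/-- The polynomial with given coefficients, polynomials in the time. -/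
noncomputable def rpl (i₁ : Fin (k + 1)) (K : ℕ) (f : Fin (K + 1) → M5.Mon k K → ℝ) :
    MvPolynomial (Fin (k + 1)) ℝ :=
  ∑ al : M5.Mon k K, (∑ i : Fin (K + 1), C (f i al) * X i₁ ^ (i : ℕ)) *
    ∏ j : Fin k, X (i₁.succAbove j) ^ (al : Fin k → ℕ) j

theorem eval_rpl (i₁ : Fin (k + 1)) (K : ℕ) (f : Fin (K + 1) → M5.Mon k K → ℝ)
    (b : Fin (k + 1) → ℝ) : eval b (rpl i₁ K f) = ∑ al : M5.Mon k K,
      (∑ i : Fin (K + 1), f i al * b i₁ ^ (i : ℕ)) *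
        M5.mono (al : Fin k → ℕ) (fun j => b (i₁.succAbove j)) := by
  unfold rpl M5.mono
  rw [map_sum]
  refine Finset.sum_congr rfl fun al _ => ?_
  rw [map_mul, map_sum, map_prod]
  congr 1
  · refine Finset.sum_congr rfl fun i _ => ?_
    rw [map_mul, eval_C, map_pow, eval_X]
  · refine Finset.prod_congr rfl fun j _ => ?_
    rw [map_pow, eval_X]

theorem mon_le {K : ℕ} (al : M5.Mon k K) : ∑ j, (al : Fin k → ℕ) j ≤ K := by
  have h := al.2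
  unfold M5.Mon at h
  exact (Finset.mem_filter.1 h).2.2

theorem totalDegree_rpl_le (i₁ : Fin (k + 1)) (K : ℕ) (f : Fin (K + 1) → M5.Mon k K → ℝ) :
    (rpl i₁ K f).totalDegree ≤ 2 * K := by
  unfold rpl
  refine (totalDegree_finsetSum _ _).trans (Finset.sup_le fun al _ => ?_)
  refine (totalDegree_mul _ _).trans ?_
  have h1 : (∑ i : Fin (K + 1), C (f i al) * X i₁ ^ (i : ℕ) :
      MvPolynomial (Fin (k + 1)) ℝ).totalDegree ≤ K := by
    refine (totalDegree_finsetSum _ _).trans (Finset.sup_le fun i _ => ?_)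
    refine (totalDegree_mul _ _).trans ?_
    rw [totalDegree_C, zero_add]
    refine (totalDegree_pow _ _).trans ?_
    rw [totalDegree_X, mul_one]
    exact Nat.lt_succ_iff.1 i.2
  have h2 : (∏ j : Fin k, X (i₁.succAbove j) ^ (al : Fin k → ℕ) j :
      MvPolynomial (Fin (k + 1)) ℝ).totalDegree ≤ K := by
    refine (totalDegree_finsetProd _ _).trans ?_
    refine le_trans (Finset.sum_le_sum fun j _ => ?_) (mon_le al)
    refine (totalDegree_pow _ _).trans ?_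
    rw [totalDegree_X, mul_one]
  omega

theorem mono_le {K : ℕ} (al : M5.Mon k K) {x : Fin k → ℝ} (hx : ∀ j, |x j| ≤ 3) :
    |M5.mono (al : Fin k → ℕ) x| ≤ 3 ^ K := by
  unfold M5.mono
  rw [Finset.abs_prod]
  have h1 : ∏ j, |x j ^ (al : Fin k → ℕ) j| ≤ ∏ j, (3 : ℝ) ^ (al : Fin k → ℕ) j := by
    refine Finset.prod_le_prod (fun _ _ => abs_nonneg _) fun j _ => ?_
    rw [abs_pow]
    exact pow_le_pow_left₀ (abs_nonneg _) (hx j) _
  refine h1.trans ?_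
  rw [Finset.prod_pow_eq_pow_sum]
  exact pow_le_pow_right₀ (by norm_num) (mon_le al)

theorem rpl_bound (i₁ : Fin (k + 1)) (K : ℕ) {C₁ : ℝ} (hC₁ : 0 ≤ C₁)
    (f : Fin (K + 1) → M5.Mon k K → ℝ) (hf : ∀ i al, |f i al| ≤ C₁) (b : Fin (k + 1) → ℝ)
    (hb : ∀ i, |b i| ≤ 3) : |eval b (rpl i₁ K f)| ≤
      Fintype.card (M5.Mon k K) * ((K + 1) * (C₁ * 3 ^ K) * 3 ^ K) := by
  rw [eval_rpl]
  refine (Finset.abs_sum_le_sum_abs _ _).trans ?_
  have h1 : ∀ al ∈ (Finset.univ : Finset (M5.Mon k K)),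
      |(∑ i : Fin (K + 1), f i al * b i₁ ^ (i : ℕ)) *
        M5.mono (al : Fin k → ℕ) (fun j => b (i₁.succAbove j))| ≤
        (K + 1) * (C₁ * 3 ^ K) * 3 ^ K := by
    intro al _
    rw [abs_mul]
    refine mul_le_mul ?_ (mono_le al fun j => hb _) (abs_nonneg _) (by positivity)
    refine (Finset.abs_sum_le_sum_abs _ _).trans ?_
    have h2 : ∀ i ∈ (Finset.univ : Finset (Fin (K + 1))), |f i al * b i₁ ^ (i : ℕ)| ≤
        C₁ * 3 ^ K := by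
      intro i _
      rw [abs_mul, abs_pow]
      refine mul_le_mul (hf i al) ?_ (by positivity) hC₁
      refine (pow_le_pow_left₀ (abs_nonneg _) (hb i₁) _).trans ?_
      exact pow_le_pow_right₀ (by norm_num) (Nat.lt_succ_iff.1 i.2)
    refine (Finset.sum_le_sum h2).trans ?_
    rw [Finset.sum_const, Finset.card_univ, Fintype.card_fin, nsmul_eq_mul]
    push_cast
    exact le_refl _
  refine (Finset.sum_le_sum h1).trans ?_
  rw [Finset.sum_const, Finset.card_univ, nsmul_eq_mul]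

end pol

/-! ### The error -/

/-- The final estimate of the error. -/
theorem err_le {K Mc u sp R E s g : ℕ} {C₀ M : ℝ} (hC₀ : 0 ≤ C₀) (hM : 0 ≤ M)
    (hR : 1 ≤ R) (hs : 2 * K + 8 ≤ s) (hE : (K + 1) * s ≤ E) (hg : (R + E) * u ≤ g)
    (hsp : K * sp ≤ u)
    (hu : 1 + (K + 1) * 2 ^ K * (2 * (Mc * 3 ^ K) + C₀ * (2 * M) * 4 ^ (K + 1) + 2) ≤
      (2 : ℝ) ^ u) :
    1 / 2 ^ g + (K + 1) * (2 * 2 ^ sp) ^ K *
      ((2 * (Mc * 3 ^ K / 2 ^ (E * u)) + C₀ * (2 * M) * (4 / 2 ^ ((s - 2) * u)) ^ (K + 1)) /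
        2 ^ ((R - 1) * u) + 2 * (1 / 2 ^ g)) ≤ (1 : ℝ) / 2 ^ ((R + 1 + K * s) * u) := by
  obtain ⟨Q, hQ⟩ : ∃ Q, Q = (R + 1 + K * s) * u + 4 * u := ⟨_, rfl⟩
  have hE' : K * s + s ≤ E := by
    have : (K + 1) * s = K * s + s := by ring
    omega
  have q1 : Q ≤ g := by
    rw [hQ, ← Nat.add_mul]
    refine le_trans (Nat.mul_le_mul_right u ?_) hg
    omega
  have q2 : Q ≤ E * u + (R - 1) * u := by
    rw [hQ, ← Nat.add_mul, ← Nat.add_mul]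
    refine Nat.mul_le_mul_right u ?_
    omega
  have q3 : Q ≤ (K + 1) * ((s - 2) * u) + (R - 1) * u := by
    rw [hQ, ← Nat.add_mul, ← Nat.mul_assoc, ← Nat.add_mul]
    refine Nat.mul_le_mul_right u ?_
    obtain ⟨s', hs'⟩ : ∃ s', s = s' + 2 := ⟨s - 2, by omega⟩
    have h1 : s - 2 = s' := by omega
    rw [h1, hs']
    have h2 : (K + 1) * s' = K * s' + s' := by ring
    have h3 : K * (s' + 2) = K * s' + 2 * K := by ring
    omega
  have hQ0 : (0 : ℝ) < 2 ^ Q := by positivity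
  have a1 : (1 : ℝ) / 2 ^ g ≤ 1 / 2 ^ Q := inv_mono q1
  have a2 : (2 * (Mc * 3 ^ K / 2 ^ (E * u)) : ℝ) / 2 ^ ((R - 1) * u) ≤
      2 * (Mc * 3 ^ K) * (1 / 2 ^ Q) := by
    have h1 : (2 * (Mc * 3 ^ K / 2 ^ (E * u)) : ℝ) / 2 ^ ((R - 1) * u) =
        2 * (Mc * 3 ^ K) * (1 / 2 ^ (E * u + (R - 1) * u)) := by
      rw [pow_add]
      field_simp
    rw [h1]
    exact mul_le_mul_of_nonneg_left (inv_mono q2) (by positivity)
  have a3 : C₀ * (2 * M) * (4 / 2 ^ ((s - 2) * u)) ^ (K + 1) / 2 ^ ((R - 1) * u) ≤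
      C₀ * (2 * M) * 4 ^ (K + 1) * (1 / 2 ^ Q) := by
    have h1 : C₀ * (2 * M) * (4 / 2 ^ ((s - 2) * u)) ^ (K + 1) / 2 ^ ((R - 1) * u) =
        C₀ * (2 * M) * 4 ^ (K + 1) * (1 / 2 ^ ((K + 1) * ((s - 2) * u) + (R - 1) * u)) := by
      have h2 : (2 : ℝ) ^ ((K + 1) * ((s - 2) * u) + (R - 1) * u) =
          2 ^ ((K + 1) * ((s - 2) * u)) * 2 ^ ((R - 1) * u) := pow_add _ _ _
      rw [h2, div_pow, ← pow_mul, Nat.mul_comm ((s - 2) * u) (K + 1)]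
      have h3 : (0 : ℝ) < 2 ^ ((K + 1) * ((s - 2) * u)) := by positivity
      have h4 : (0 : ℝ) < 2 ^ ((R - 1) * u) := by positivity
      rw [mul_div_assoc', div_div, mul_one_div]
    rw [h1]
    exact mul_le_mul_of_nonneg_left (inv_mono q3) (by positivity)
  have a4 : (2 * 2 ^ sp : ℝ) ^ K ≤ 2 ^ K * 2 ^ u := by
    rw [mul_pow, ← pow_mul, Nat.mul_comm sp K]
    exact mul_le_mul_of_nonneg_left (pow_le_pow_right₀ (by norm_num) hsp) (by positivity)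
  have a5 : (2 * (Mc * 3 ^ K / 2 ^ (E * u)) + C₀ * (2 * M) * (4 / 2 ^ ((s - 2) * u)) ^ (K + 1)) /
        2 ^ ((R - 1) * u) + 2 * (1 / 2 ^ g) ≤
      (2 * (Mc * 3 ^ K) + C₀ * (2 * M) * 4 ^ (K + 1) + 2) * (1 / 2 ^ Q) := by
    rw [add_div]
    nlinarith
  have a6 : (0 : ℝ) ≤ 2 * (Mc * 3 ^ K) + C₀ * (2 * M) * 4 ^ (K + 1) + 2 := by positivity
  have a7 : (K + 1) * (2 * 2 ^ sp : ℝ) ^ K *
      ((2 * (Mc * 3 ^ K / 2 ^ (E * u)) + C₀ * (2 * M) * (4 / 2 ^ ((s - 2) * u)) ^ (K + 1)) /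
        2 ^ ((R - 1) * u) + 2 * (1 / 2 ^ g)) ≤
      (K + 1) * (2 ^ K * 2 ^ u) *
        ((2 * (Mc * 3 ^ K) + C₀ * (2 * M) * 4 ^ (K + 1) + 2) * (1 / 2 ^ Q)) := by
    refine mul_le_mul (mul_le_mul_of_nonneg_left a4 (by positivity)) a5 (by positivity)
      (by positivity)
  have hu1 : (1 : ℝ) ≤ 2 ^ u := one_le_pow₀ (by norm_num)
  have a8 : (1 : ℝ) / 2 ^ g ≤ 2 ^ u * (1 / 2 ^ Q) := by
    refine a1.trans ?_
    have : (0 : ℝ) ≤ 1 / 2 ^ Q := by positivity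
    nlinarith
  have a9 : (2 : ℝ) ^ u * (1 + (K + 1) * 2 ^ K *
      (2 * (Mc * 3 ^ K) + C₀ * (2 * M) * 4 ^ (K + 1) + 2)) * (1 / 2 ^ Q) ≤
      2 ^ u * 2 ^ u * (1 / 2 ^ Q) := by
    refine mul_le_mul_of_nonneg_right (mul_le_mul_of_nonneg_left hu (by positivity))
      (by positivity)
  have a10 : (2 : ℝ) ^ u * 2 ^ u * (1 / 2 ^ Q) ≤ 1 / 2 ^ ((R + 1 + K * s) * u) := by
    have h1 : (2 : ℝ) ^ Q = 2 ^ ((R + 1 + K * s) * u) * (2 ^ u * 2 ^ u * (2 ^ u * 2 ^ u)) := by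
      rw [hQ, ← pow_add, ← pow_add, ← pow_add]
      congr 1
      ring
    rw [h1, mul_one_div, div_le_div_iff₀ (by positivity) (by positivity)]
    have h2 : (1 : ℝ) ≤ 2 ^ u * 2 ^ u := by nlinarith
    have h3 : (0 : ℝ) ≤ 2 ^ u * 2 ^ u * 2 ^ ((R + 1 + K * s) * u) := by positivity
    nlinarith
  calc _ ≤ 2 ^ u * (1 / 2 ^ Q) + (K + 1) * (2 ^ K * 2 ^ u) *
        ((2 * (Mc * 3 ^ K) + C₀ * (2 * M) * 4 ^ (K + 1) + 2) * (1 / 2 ^ Q)) := add_le_add a8 a7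
    _ = 2 ^ u * (1 + (K + 1) * 2 ^ K *
      (2 * (Mc * 3 ^ K) + C₀ * (2 * M) * 4 ^ (K + 1) + 2)) * (1 / 2 ^ Q) := by ring
    _ ≤ _ := a9.trans a10

end Pool.SLO.FN
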