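import Pool.Agent.H28.SLO.Fin5

/-!
# The last step of the slope law, part 6: `Pool.SLF.FIN`
-/

set_option autoImplicit false

namespace Pool.SLO.FN

open Finset Real MvPolynomial
open Pool.Agent.H49.Ent Pool.Agent.H32.Dense Pool.STK Pool.KA Pool.KSAT Pool.K2S Pool.PB Pool.SLO

open Classical in
theorem pe_mono {Ω : Type} [Fintype Ω] {p : Ω → ℝ} (hp : IsLaw p) {A B : Ω → Prop}
    (h : ∀ ω, 0 < p ω → A ω → B ω) : Pe p A ≤ Pe p B := by
  rw [Pe_eq, Pe_eq]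
  refine Finset.sum_le_sum fun ω _ => ?_
  rcases (hp.nonneg ω).eq_or_lt with h0 | h0
  · rw [← h0]
    simp
  · by_cases hA : A ω
    · rw [if_pos hA, if_pos (h ω h0 hA)]
    · rw [if_neg hA]
      split_ifs
      exacts [h0.le, le_rfl]

open Classical in
theorem pe_not {Ω : Type} [Fintype Ω] {p : Ω → ℝ} (hp : IsLaw p) (A : Ω → Prop) :
    Pe p A + Pe p (fun ω => ¬ A ω) = 1 := by
  rw [Pe_eq, Pe_eq, ← Finset.sum_add_distrib, ← hp.sum_one]
  refine Finset.sum_congr rfl fun ω _ => ?_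
  by_cases hA : A ω <;> simp [hA]

/-- The label on the larger window from the data, for one family. -/
theorem fin_fam {k : ℕ} {C₀ : ℝ} {K : ℕ} (hC₀ : 0 ≤ C₀) (hK : 1 ≤ K)
    (hC : ∀ (M : ℝ) (Q : MvPolynomial (Fin (k + 1)) ℝ) (x : Fin (k + 1) → ℝ), 0 ≤ M →
      Q.totalDegree ≤ 2 * K →
      (∀ b : Fin (k + 1) → ℝ, (∀ i, |b i - x i| ≤ 1) → |eval b Q| ≤ M) →
      ∀ (ρ : ℝ) (b : Fin (k + 1) → ℝ), 0 ≤ ρ → ρ ≤ 1 → (∀ i, |b i - x i| ≤ ρ) →
        |eval b Q - eval b (tay K x Q)| ≤ C₀ * M * ρ ^ (K + 1))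
    {C₁ : ℝ} (hC₁ : 0 ≤ C₁) {J : ℕ} (F : Fam (k + 1) J) (A : F.Ω → Prop)
    {N : ℕ} (i₁ : Fin (k + 1)) {ρ R q a w s E : ℕ} (hwa : w ≤ a)
    (haρ : a + s ≤ ρ) (hq : a + 3 + E ≤ w + q) (hs : 2 * K + 8 ≤ s) (hE : (K + 1) * s ≤ E)
    (hR : 1 ≤ R) (hρN : ρ ≤ N) {u : ℕ} (hu : J / N = u) (hu2 : 2 ≤ u) {sp : ℕ}
    (hsp : K * sp ≤ u)
    (huC : 1 + (K + 1) * 2 ^ K * (2 * ((Fintype.card (M5.Mon k K) : ℕ) * 3 ^ K) +
      C₀ * (2 * (Fintype.card (M5.Mon k K) * ((K + 1) * (C₁ * 3 ^ K) * 3 ^ K))) * 4 ^ (K + 1) + 2)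
        ≤ (2 : ℝ) ^ u)
    (p : ℕ → ℕ → ℕ) (d : Pool.SLF.Dts F) (hd : d.OK i₁ N ρ K p A) (hRE : R + E ≤ p a a)
    (v : ℕ) (hv1 : w * (J / N) ≤ v) (hv2 : v ≤ (w + 1) * (J / N)) (hv3 : v ≤ a * (J / N))
    (Rr : Pool.SLF.Sl F → Fin (K + 1) → M5.Mon k K → ℝ) (hRr : ∀ l i al, |Rr l i al| ≤ C₁) :
    Tb F i₁ (ρ * (J / N)) K ((a + s) * (J / N)) ((w + s) * (J / N)) ((R + 1 + K * s) * (J / N))
      (fun ω => A ω ∧ Sg F K ((a + s) * (J / N)) sp (fun ω => A ω ∧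
        ∀ al, |Pool.SLF.sh F i₁ N ρ K q d R a v ω al -
          ∑ i, Rr (slam F v ω) i al * F.tw v ω ^ (i : ℕ)| ≤ 1 / 2 ^ (E * (J / N))) ω) := by
  classical
  rw [hu] at hv1 hv2 hv3 ⊢
  obtain ⟨ab, hab⟩ : ∃ ab, ab = (a + 2) * u := ⟨_, rfl⟩
  obtain ⟨ub, hub⟩ : ∃ ub, ub = (s - 2) * u := ⟨_, rfl⟩
  have hNu : N * u ≤ J := by rw [← hu]; exact Nat.mul_div_le J N
  have hsum : ab + ub = (a + s) * u := by
    rw [hab, hub, ← Nat.add_mul]
    congr 1
    omega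
  have hJ1 : (a + s) * u ≤ J :=
    (Nat.mul_le_mul_right u (haρ.trans hρN)).trans hNu
  have haq : ab ≤ v + q * u := by
    have h1 : (a + 2) * u ≤ (w + q) * u := Nat.mul_le_mul_right u (by omega)
    rw [hab]
    calc (a + 2) * u ≤ (w + q) * u := h1
      _ = w * u + q * u := by ring
      _ ≤ v + q * u := by omega
  have hva : v ≤ ab := by
    rw [hab]
    exact hv3.trans (Nat.mul_le_mul_right u (by omega))
  have hub2 : 2 ≤ ub := by
    rw [hub]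
    have h1 : 1 * u ≤ (s - 2) * u := Nat.mul_le_mul_right u (by omega)
    omega
  -- the objects
  set Rf : Sl F → MvPolynomial (Fin (k + 1)) ℝ :=
    ofsl F v (fun ω => Rc F i₁ ab v (q * u) K (R * u) (d.H a v) ω) with hRf
  have hRfe : ∀ ω, Rf (slam F v ω) = Rc F i₁ ab v (q * u) K (R * u) (d.H a v) ω := by
    intro ω
    refine ofsl_eq F v (fun ω => Rc F i₁ ab v (q * u) K (R * u) (d.H a v) ω) ?_ ω
    intro ω ω' h
    exact (ctx_ext (ctx_of_slam (i₁ := i₁) (a := ab) (q := q * u) (P := R * u) (H := d.H a v)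
      h)).2.2.2.2.2.2.1 K
  set Rp : Sl F → MvPolynomial (Fin (k + 1)) ℝ := fun l => rpl i₁ K (Rr l) with hRp
  set HZ : Sl F → MvPolynomial (Fin (k + 1)) ℝ := fun s =>
    d.H a (a * u) (s.1, s.2.1, s.2.2 / 2 ^ (ab - a * u)) with hHZ
  have haab : a * u ≤ ab := by
    rw [hab]
    exact Nat.mul_le_mul_right u (by omega)
  have habJ : ab ≤ J := by omega
  have hHZe : ∀ ω, HZ (slam F ab ω) = d.H a (a * u) (slam F (a * u) ω) := by
    intro ω
    rw [hHZ, slam_coarse F haab habJ ω]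
  have ha1 : a ≤ ρ := by omega
  have hball : (1 : ℝ) / 2 ^ ab ≤ 1 / 2 ^ ((a + 1) * u) := by
    refine inv_mono ?_
    rw [hab]
    exact Nat.mul_le_mul_right u (by omega)
  have hmain := fin_tb F i₁ (r := ρ * u) (a := ab) (w := v) (q := q * u) (e := (R - 1) * u)
    (K := K) (D := 2 * K) (g := p a a * u) (u := ub) (sp := sp)
    (P' := (R + 1 + K * s) * u) (C₀ := C₀)
    (M := Fintype.card (M5.Mon k K) * ((K + 1) * (C₁ * 3 ^ K) * 3 ^ K))
    (δ := (Fintype.card (M5.Mon k K) : ℕ) * 3 ^ K / 2 ^ (E * u))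
    hK (by omega) hva haq hub2 (by positivity) (by positivity) hC₀ hC Rf Rp
    (totalDegree_ofsl F v K _ fun ω => totalDegree_rdz _ _ _)
    (fun l => totalDegree_rpl_le i₁ K (Rr l))
    (fun l b hb => rpl_bound i₁ K hC₁ (Rr l) (hRr l) b hb)
    (d.G a) HZ (hd.dG a) (fun s => hd.dH a _ _) A
    (fun ω hω => ⟨by
      have h1 := hd.on a ha1 ω hω
      unfold Pool.SLF.own at h1
      rw [hu] at h1
      exact h1, by
      have h1 := hd.g0 a ha1 ω hω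
      unfold Pool.SLF.own at h1
      rw [hu] at h1
      exact h1, fun b hb => by
      rw [hHZe ω]
      have h1 := hd.tb a ha1 a le_rfl (a * u) (by rw [hu]) (by rw [hu]) ω hω b (fun j => by
        rw [hu]
        exact (hb j).trans hball)
      unfold Pool.SLF.own at h1
      rw [hu] at h1
      exact h1⟩)
    (by
      refine Nat.mul_le_mul_right u (le_trans ?_ hRE)
      have : (K + 1) * s = K * s + s := by ring
      omega)
    (by
      have h2 := err_le (K := K) (Mc := Fintype.card (M5.Mon k K)) (u := u) (sp := sp) (R := R)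
        (E := E) (s := s) (g := p a a * u) (C₀ := C₀)
        (M := Fintype.card (M5.Mon k K) * ((K + 1) * (C₁ * 3 ^ K) * 3 ^ K)) hC₀
        (by positivity) hR hs hE (Nat.mul_le_mul_right u hRE) hsp huC
      rw [← hub] at h2
      exact h2)
  rw [hsum] at hmain
  have hw2 : v + ub ≤ (w + s) * u := by
    rw [hub]
    calc v + (s - 2) * u ≤ (w + 1) * u + (s - 2) * u := by omega
      _ = (w + 1 + (s - 2)) * u := by ring
      _ ≤ (w + s) * u := Nat.mul_le_mul_right u (by omega)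
  have hw3 : (w + s) * u ≤ J :=
    (Nat.mul_le_mul_right u (by omega : w + s ≤ a + s)).trans hJ1
  have hmono := Tb.mono le_rfl le_rfl le_rfl hw2 hw3 le_rfl hmain
  -- the events
  refine Tb.hered F i₁ _ _ _ _ _ _ _ ?_ hmono
  rintro ω ⟨hA, vv, hvv1, hvv2⟩
  refine ⟨hA, vv, fun i => ⟨⟨(hvv1 i).1.1, ?_⟩, (hvv1 i).2⟩, hvv2⟩
  obtain ⟨⟨hAv, hgood⟩, -⟩ := hvv1 i
  intro b hbt hb3
  have hpn : b = pnt i₁ b 0 (F.tw v (vv i)) := by
    funext j
    unfold pnt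
    split_ifs with hj
    · rw [hj, hbt]
    · simp
  have hdG : (plb F i₁ ab v (q * u) (vv i) (d.G a (ptr F (ρ * u) (vv i)))).totalDegree ≤ K :=
    (totalDegree_pull_le _ _ _ _ _ _).trans (hd.dG a _)
  have h1 : shp ((R - 1) * u) i₁ (plb F i₁ ab v (q * u) (vv i) (d.G a (ptr F (ρ * u) (vv i))))
      (Rf (slam F v (vv i))) b = ∑ al : M5.Mon k K,
      Pool.SLF.sh F i₁ N ρ K q d R a v (vv i) al *
        M5.mono (al : Fin k → ℕ) (fun j => b (i₁.succAbove j)) := by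
    have h4 := shp_eq (K := K) ((R - 1) * u) i₁
      (plb F i₁ ab v (q * u) (vv i) (d.G a (ptr F (ρ * u) (vv i))))
      (Rc F i₁ ab v (q * u) K (R * u) (d.H a v) (vv i)) hdG (totalDegree_rdz _ _ _)
      (F.tw v (vv i)) b
    rw [← hpn] at h4
    rw [hRfe, h4]
    unfold Pool.SLF.sh shw Pool.SLF.own
    rw [hu, ← hab]
  have h2 : eval b (Rp (slam F v (vv i))) = ∑ al : M5.Mon k K,
      (∑ i' : Fin (K + 1), Rr (slam F v (vv i)) i' al * F.tw v (vv i) ^ (i' : ℕ)) *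
        M5.mono (al : Fin k → ℕ) (fun j => b (i₁.succAbove j)) := by
    change eval b (rpl i₁ K (Rr (slam F v (vv i)))) = _
    rw [eval_rpl, hbt]
  rw [h1, h2, ← Finset.sum_sub_distrib]
  refine (Finset.abs_sum_le_sum_abs _ _).trans ?_
  have h3 : ∀ al ∈ (Finset.univ : Finset (M5.Mon k K)),
      |Pool.SLF.sh F i₁ N ρ K q d R a v (vv i) al *
        M5.mono (al : Fin k → ℕ) (fun j => b (i₁.succAbove j)) -
      (∑ i' : Fin (K + 1), Rr (slam F v (vv i)) i' al * F.tw v (vv i) ^ (i' : ℕ)) *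
        M5.mono (al : Fin k → ℕ) (fun j => b (i₁.succAbove j))| ≤
        1 / 2 ^ (E * u) * 3 ^ K := by
    intro al _
    rw [← sub_mul, abs_mul]
    exact mul_le_mul (hgood al) (mono_le al fun j => hb3 _) (abs_nonneg _) (by positivity)
  refine (Finset.sum_le_sum h3).trans (le_of_eq ?_)
  rw [Finset.sum_const, Finset.card_univ, nsmul_eq_mul]
  ring

/-- **(FIN)** The production of the label on the larger window. -/
theorem fin_thm {k : ℕ} (S : FCl (k + 1)) : Pool.SLF.FIN S := by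
  classical
  intro c h₁ X K C₁ hc hh hX hK N i₁ ρ R q a w s E hwa haR haρ hq hs hE hR hRE hρN
  have hN : 0 < N := by
    rcases Nat.eq_zero_or_pos N with h | h
    · exfalso
      subst h
      have h1 : (ρ : ℝ) ≤ 0 := by simpa using hρN
      have h2 : ρ = 0 := by exact_mod_cast le_antisymm h1 (Nat.cast_nonneg _)
      omega
    · exact h
  have hNr : (0 : ℝ) < N := by exact_mod_cast hN
  have hρN1 : ρ + 1 ≤ N := by
    have h1 : (ρ : ℝ) < N := by nlinarith only [hρN, hX, hNr]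
    have h2 : ρ < N := by exact_mod_cast h1
    omega
  obtain ⟨C₀, hC₀1, hC⟩ := tay_err (k + 1) K (2 * K)
  have hC₀ : 0 ≤ C₀ := by linarith only [hC₀1]
  obtain ⟨Cp, hCp⟩ : ∃ Cp, Cp = max C₁ 0 := ⟨_, rfl⟩
  have hCp0 : 0 ≤ Cp := by rw [hCp]; exact le_max_right _ _
  obtain ⟨Cst, hCst⟩ : ∃ Cst : ℝ, Cst = 1 + (K + 1) * 2 ^ K *
    (2 * ((Fintype.card (M5.Mon k K) : ℕ) * 3 ^ K) +
      C₀ * (2 * (Fintype.card (M5.Mon k K) * ((K + 1) * (Cp * 3 ^ K) * 3 ^ K))) *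
        4 ^ (K + 1) + 2) := ⟨_, rfl⟩
  obtain ⟨u₀, hu₀⟩ : ∃ u₀ : ℕ, Cst < 2 ^ u₀ := pow_unbounded_of_one_lt Cst one_lt_two
  have hl2 : 0 < Real.log 2 := Real.log_pos one_lt_two
  have hKr : (1 : ℝ) ≤ K := by exact_mod_cast hK
  refine Clg.one ⟨1, fun J F _ => Tb F i₁ (ρ * (J / N)) K ((a + s) * (J / N))
    ((w + s) * (J / N)) ((R + 1 + K * s) * (J / N)), fun J F _ => Tb.hered F i₁ _ _ _ _ _⟩
    fun κ hκ => ?_
  obtain ⟨τ, hτ⟩ : ∃ τ, τ = Real.log 2 / (192 * K * N) := ⟨_, rfl⟩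
  have hτ0 : 0 < τ := by rw [hτ]; positivity
  -- the number of digits which separate the times
  obtain ⟨s₁, hs₁⟩ : ∃ s₁ : ℕ, (4 * (K + 1)) ^ 2 < 2 ^ s₁ :=
    pow_unbounded_of_one_lt ((4 * (K + 1)) ^ 2) one_lt_two
  obtain ⟨J₂, hJ₂⟩ := exists_nat_gt (Real.log 2 / κ)
  obtain ⟨J₁, hJ₁⟩ : ∃ J₁ : ℕ, J₁ = J₂ + N * (u₀ + 2 * K * (s₁ + 1) + 2) := ⟨_, rfl⟩
  refine ⟨τ, hτ0, J₁, ?_⟩
  intro J hJ F A hSt hSb hCh hPls p d hd hRp hREp v hv1 hv2 hv3 Rr hRr hbad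
  obtain ⟨u, hu⟩ : ∃ u, u = J / N := ⟨_, rfl⟩
  have hu1 : u₀ + 2 * K * (s₁ + 1) + 2 ≤ u := by
    rw [hu, Nat.le_div_iff_mul_le hN, Nat.mul_comm]
    omega
  obtain ⟨sp, hsp⟩ : ∃ sp, sp = u / (2 * K) := ⟨_, rfl⟩
  have hsp1 : s₁ + 1 ≤ sp := by
    rw [hsp, Nat.le_div_iff_mul_le (by omega), Nat.mul_comm]
    omega
  have hspK : K * sp ≤ u := by
    have h1 : u / (2 * K) * (2 * K) ≤ u := Nat.div_mul_le_self _ _
    rw [← hsp] at h1
    have h2 : K * sp ≤ sp * (2 * K) := by nlinarith only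
    omega
  have hspu : sp ≤ u := by
    rw [hsp]
    exact Nat.div_le_self _ _
  have huC : Cst ≤ (2 : ℝ) ^ u :=
    hu₀.le.trans (pow_le_pow_right₀ (by norm_num) (by omega))
  rw [hCst] at huC
  have hRr' : ∀ l i al, |Rr l i al| ≤ Cp := fun l i al =>
    (hRr l i al).trans (by rw [hCp]; exact le_max_left _ _)
  have hTb := fin_fam hC₀ hK hC hCp0 F A i₁ hwa haρ hq hs hE hR (by omega : ρ ≤ N) hu.symm (by omega)
    hspK huC p d hd hREp v hv1 hv2 hv3 Rr hRr'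
  -- the law on the event
  obtain ⟨hT, hPA⟩ := hSt
  have hA0 : 0 < Pe F.p A := lt_of_lt_of_le (Real.exp_pos _) hPA
  have hq' : IsLaw (Pool.Agent.H49.Ent.cond F.p A True) := isLaw_cond F.isLaw hA0
  have hJr : (0 : ℝ) ≤ J := Nat.cast_nonneg J
  have he : (J : ℝ) * Real.log 2 - 6 * (τ * J) ≤
      CH (Pool.Agent.H49.Ent.cond F.p A True) F.T (fun ω => (F.l ω, F.Z ω)) := by
    have h1 := Pool.STPA.sub_Tm_of_reg (S.tr hT) (S.tm hT) (S.rb hT) hA0 hPA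
    unfold Fam.Tm at h1
    have h2 : CH (Pool.FLF.Fam.sub F A hA0).p (Pool.FLF.Fam.sub F A hA0).T
        (fun ω => ((Pool.FLF.Fam.sub F A hA0).l ω, (Pool.FLF.Fam.sub F A hA0).Z ω)) =
        CH (Pool.Agent.H49.Ent.cond F.p A True) F.T (fun ω => (F.l ω, F.Z ω)) :=
      Pool.FLF.sub_marg.CH F.T (fun ω => (F.l ω, F.Z ω))
    rw [h2] at h1
    linarith only [h1]
  have hNu : N * u ≤ J := by rw [hu]; exact Nat.mul_div_le J N
  have hwin : (a + s) * u + sp ≤ J := by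
    have h1 : (a + s) * u ≤ ρ * u := Nat.mul_le_mul_right u haρ
    have h2 : ρ * u + u ≤ N * u := by
      have : (ρ + 1) * u ≤ N * u := Nat.mul_le_mul_right u hρN1
      linarith only [this, this, Nat.add_mul ρ 1 u]
    omega
  have htf := Pool.Agent.H25.M5.time_full he hq' (w := (a + s) * u) (w' := (a + s) * u + sp)
    (Nat.le_add_right _ _) hwin
  rw [Nat.add_sub_cancel_left] at htf
  set Ev : F.Ω → Prop := fun ω => A ω ∧
    ∀ al, |Pool.SLF.sh F i₁ N ρ K q d R a v ω al -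
      ∑ i, Rr (slam F v ω) i al * F.tw v ω ^ (i : ℕ)| ≤ 1 / 2 ^ (E * (J / N)) with hEv
  have hk : (4 * (K + 1)) ^ 2 ≤ 2 ^ sp := by
    refine hs₁.le.trans (Nat.pow_le_pow_right (by norm_num) (by omega))
  have htms := Pool.Agent.H39.SLO.tms_fam F hq' Ev (n := K + 1) (k := sp) (w := (a + s) * u)
    (by omega) hwin (e := 6 * (τ * J)) (by positivity) htf hk
  -- the bad samples
  have hcA : ∀ ω, 0 < Pool.Agent.H49.Ent.cond F.p A True ω → A ω := by
    intro ω hω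
    have h1 := ((cond_pos_iff F.isLaw.nonneg A True ω).1 hω).2
    rw [h1]
    trivial
  have hbad' : Pe (Pool.Agent.H49.Ent.cond F.p A True) (fun ω => ¬ Ev ω) ≤ 1 / 8 := by
    refine le_trans ?_ hbad
    have h1 := pe_mono (p := Pool.Agent.H49.Ent.cond F.p A True) hq'
      (A := fun ω => ¬ Ev ω) (B := fun ω => ω ∈ {ω | ∃ al, 1 / (2 : ℝ) ^ (E * (J / N)) <
        |Pool.SLF.sh F i₁ N ρ K q d R a v ω al -
          ∑ i, Rr (slam F v ω) i al * F.tw v ω ^ (i : ℕ)|}) (by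
        intro ω hω hn
        by_contra hcon
        refine hn ⟨hcA ω hω, fun al => ?_⟩
        by_contra h2
        exact hcon ⟨al, not_le.1 h2⟩)
    exact h1
  have hspr : (J : ℝ) / (4 * K * N) ≤ sp := by
    have h1 : u < sp * (2 * K) + 2 * K := by
      rw [hsp]
      exact Nat.lt_div_mul_add (by omega)
    have h2 : J < u * N + N := by
      rw [hu]
      exact Nat.lt_div_mul_add hN
    have h1' : (u : ℝ) + 1 ≤ sp * (2 * K) + 2 * K := by exact_mod_cast h1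
    have h2' : (J : ℝ) ≤ u * N + N := by exact_mod_cast h2.le
    have h3 : (1 : ℝ) ≤ sp := by exact_mod_cast (by omega : 1 ≤ sp)
    rw [div_le_iff₀ (by positivity)]
    have h4 : (u : ℝ) + 1 ≤ sp * (4 * K) := by nlinarith only [h1', h3]
    nlinarith only [h2', h4]
  have hloss : 2 * (6 * (τ * J)) / (sp * Real.log 2) ≤ 1 / 4 := by
    have hsp0 : (0 : ℝ) < sp := by exact_mod_cast (by omega : 0 < sp)
    rw [div_le_iff₀ (by positivity)]
    have h1 : τ * J * (192 * K * N) = Real.log 2 * J := by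
      rw [hτ]
      field_simp
    have h2 : (J : ℝ) ≤ sp * (4 * K * N) := by
      rw [div_le_iff₀ (by positivity)] at hspr
      exact hspr
    have h5 : τ * J = Real.log 2 * J / (192 * K * N) := by
      rw [eq_div_iff (by positivity)]
      exact h1
    rw [h5]
    rw [← mul_assoc, ← mul_div_assoc, div_le_iff₀ (by positivity)]
    nlinarith only [hl2, h2]
  have hgood : 1 / 2 ≤ Pe (Pool.Agent.H49.Ent.cond F.p A True)
      (fun ω => Sg F K ((a + s) * u) sp Ev ω) := by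
    have h1 := pe_not hq' (fun ω => Sg F K ((a + s) * u) sp Ev ω)
    have h2 := pe_mono (p := Pool.Agent.H49.Ent.cond F.p A True) hq'
      (A := fun ω => ¬ Sg F K ((a + s) * u) sp Ev ω)
      (B := fun ω => ¬ ∃ v : Fin (K + 1) → F.Ω, (∀ i, Ev (v i) ∧
        0 < Pool.Agent.H49.Ent.cond F.p A True (v i) ∧
        slam F ((a + s) * u) (v i) = slam F ((a + s) * u) ω) ∧
        ∀ i j, i ≠ j → 1 / 2 ^ ((a + s) * u + sp) ≤ |F.t (v i) - F.t (v j)|) (by
        intro ω _ hn hex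
        obtain ⟨vv, h3, h4⟩ := hex
        exact hn ⟨vv, fun i => ⟨(h3 i).1, (h3 i).2.2⟩, h4⟩)
    linarith only [htms, hbad', hloss, h1, h2]
  have hhalf : Real.exp (-(κ * J)) ≤ 1 / 2 := by
    have h1 : Real.log 2 ≤ κ * J := by
      have h2 : (J₂ : ℝ) ≤ J := by
        have : J₂ ≤ J := by omega
        exact_mod_cast this
      rw [div_lt_iff₀ hκ] at hJ₂
      nlinarith only [hJ₂, hκ, h2]
    calc Real.exp (-(κ * J)) ≤ Real.exp (-Real.log 2) := Real.exp_le_exp.2 (by linarith only [h1])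
      _ = 1 / 2 := by rw [Real.exp_neg, Real.exp_log (by norm_num), one_div]
  have hstb : Stb F.p (κ * J) A (Tb F i₁ (ρ * (J / N)) K ((a + s) * (J / N))
    ((w + s) * (J / N)) ((R + 1 + K * s) * (J / N))) := hSb (0 : Fin 1)
  refine hstb.of_sub (B := fun ω => A ω ∧ Sg F K ((a + s) * (J / N)) sp Ev ω)
    (fun ω hω => hω.1) ?_ hTb
  rw [← hu]
  rw [Pe_cond, le_div_iff₀ hA0] at hgood
  calc Real.exp (-(κ * J)) * Pe F.p A ≤ 1 / 2 * Pe F.p A :=
        mul_le_mul_of_nonneg_right hhalf hA0.le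
    _ ≤ _ := hgood

end Pool.SLO.FN
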